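import Mathlib

/-!
# MP_90837e_co: order types and arrangements of convex bodies (definitions)

Project OT (architect helper51).  Paper proof: /team-store/90837e_proof.md.
-/

set_option autoImplicit false

namespace Pool.Agent.helper51.OT

open Real Set

/-! ## Bodies, support curves, arrangements -/

/-- The plane. -/
abbrev Pl : Type := ℝ × ℝ

/-- The inner product `⟨p, (cos t, sin t)⟩`. -/
noncomputable def ip (p : Pl) (t : ℝ) : ℝ := p.1 * cos t + p.2 * sin t

/-- A body: a nonempty compact convex subset of the plane. -/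
def IsBody (A : Set Pl) : Prop := A.Nonempty ∧ IsCompact A ∧ Convex ℝ A

/-- The support function `h_A(t) = max_{p ∈ A} ⟨p, (cos t, sin t)⟩`
(the supremum is a maximum for a body). -/
noncomputable def supp (A : Set Pl) (t : ℝ) : ℝ := sSup ((fun p => ip p t) '' A)

/-- The cylinder `S¹ × ℝ`. -/
abbrev Cyl : Type := Real.Angle × ℝ

/-- The support curve of `A`: the graph of the support function in the cylinder. -/
def curve (A : Set Pl) : Set Cyl :=
  Set.range fun t : ℝ => (((t : Real.Angle), supp A t) : Cyl)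

/-- An arrangement: bodies such that for `i ≠ j` the difference of the support functions has
only isolated zeros and changes sign at each of them, no point lies on three support curves,
and there are finitely many intersection points. -/
structure IsArrangement {ι : Type} (A : ι → Set Pl) : Prop where
  /-- all members are bodies -/
  body : ∀ i, IsBody (A i)
  /-- at every zero `t` of `h_i - h_j`: no other zero nearby, and the sign changes -/
  cross : ∀ i j, i ≠ j → ∀ t : ℝ, supp (A i) t = supp (A j) t →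
    ∃ ε > 0, (∀ s : ℝ, 0 < s → s < ε →
        supp (A i) (t - s) < supp (A j) (t - s) ∧ supp (A j) (t + s) < supp (A i) (t + s)) ∨
      (∀ s : ℝ, 0 < s → s < ε →
        supp (A j) (t - s) < supp (A i) (t - s) ∧ supp (A i) (t + s) < supp (A j) (t + s))
  /-- no point lies on three support curves -/
  triple : ∀ i j k, i ≠ j → i ≠ k → j ≠ k →
    curve (A i) ∩ curve (A j) ∩ curve (A k) = ∅
  /-- finitely many intersection points -/
  finite : {z : Cyl | ∃ i j, i ≠ j ∧ z ∈ curve (A i) ∩ curve (A j)}.Finite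

/-- `φ` preserves `+∞`: for all sufficiently large `y` the second coordinate of `φ (θ, y)` is
positive for every `θ`. -/
def PreservesTop (φ : Cyl ≃ₜ Cyl) : Prop :=
  ∃ Y : ℝ, ∀ y : ℝ, Y ≤ y → ∀ θ : Real.Angle, 0 < (φ (θ, y)).2

/-- `φ` is orientation preserving, for homeomorphisms `φ` of the cylinder which preserve `+∞`:
`φ` maps the upper end to the upper end, so it preserves the orientation if and only if it has
degree `+1` on the circle factor, that is, if and only if it has a lift `Φ` to the universal cover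
`ℝ × ℝ` with `Φ (t + 2π, y) = Φ (t, y) + (2π, 0)`. -/
def OrientationPreserving (φ : Cyl ≃ₜ Cyl) : Prop :=
  ∃ Φ : ℝ × ℝ → ℝ × ℝ, Continuous Φ ∧
    (∀ t y : ℝ, φ ((t : Real.Angle), y) = (((Φ (t, y)).1 : Real.Angle), (Φ (t, y)).2)) ∧
    ∀ t y : ℝ, Φ (t + 2 * π, y) = ((Φ (t, y)).1 + 2 * π, (Φ (t, y)).2)

/-- Two families of bodies on the same index set have the same combinatorial type. -/
def SameType {ι : Type} (A B : ι → Set Pl) : Prop :=
  ∃ φ : Cyl ≃ₜ Cyl, PreservesTop φ ∧ OrientationPreserving φ ∧
    ∀ i, φ '' curve (A i) = curve (B i)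

/-- The determinant `det (q - p, r - p)`: positive iff `p, q, r` is a counterclockwise triangle,
zero iff the three points are collinear. -/
def det3 (p q r : Pl) : ℝ := (q.1 - p.1) * (r.2 - p.2) - (q.2 - p.2) * (r.1 - p.1)

/-- A triple of bodies is orientable if it has the combinatorial type of three non-collinear
points. -/
def OrientableTriple (A B C : Set Pl) : Prop :=
  ∃ P Q R : Pl, det3 P Q R ≠ 0 ∧ SameType ![A, B, C] ![{P}, {Q}, {R}]

/-- The arcs in which the boundary of `conv (A ∪ B ∪ C)` meets `A`, `B`, `C` occur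
counterclockwise in the order `A, B, C`: there are outer normal directions
`t₁ < t₂ < t₃ < t₁ + 2π` in which the boundary of `conv (A ∪ B ∪ C)` is reached exactly in
`A`, exactly in `B`, exactly in `C`, respectively. -/
def Ccw (A B C : Set Pl) : Prop :=
  ∃ t₁ t₂ t₃ : ℝ, t₁ < t₂ ∧ t₂ < t₃ ∧ t₃ < t₁ + 2 * π ∧
    (supp B t₁ < supp A t₁ ∧ supp C t₁ < supp A t₁) ∧
    (supp A t₂ < supp B t₂ ∧ supp C t₂ < supp B t₂) ∧
    (supp A t₃ < supp C t₃ ∧ supp B t₃ < supp C t₃)

open Classical in
/-- The orientation `χ_A(i, j, k)` of a triple: `+1` if the arcs occur counterclockwise in the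
order `i, j, k`, and `-1` otherwise. -/
noncomputable def chiA {ι : Type} (A : ι → Set Pl) (i j k : ι) : ℤ :=
  if Ccw (A i) (A j) (A k) then 1 else -1

/-- An arrangement is orientable if it has at least three bodies and all its triples are
orientable. -/
def IsOrientable {n : ℕ} (A : Fin n → Set Pl) : Prop :=
  3 ≤ n ∧ ∀ i j k, i ≠ j → i ≠ k → j ≠ k → OrientableTriple (A i) (A j) (A k)

/-- A simple order type on `[n]`: a uniform acyclic chirotope of rank 3 (only the values on
triples of distinct elements matter). -/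
structure IsSimpleOrderType {n : ℕ} (χ : Fin n → Fin n → Fin n → ℤ) : Prop where
  /-- the values are `±1` -/
  val : ∀ i j k, [i, j, k].Nodup → χ i j k = 1 ∨ χ i j k = -1
  /-- alternating, first transposition -/
  swap12 : ∀ i j k, [i, j, k].Nodup → χ j i k = -χ i j k
  /-- alternating, second transposition -/
  swap23 : ∀ i j k, [i, j, k].Nodup → χ i k j = -χ i j k
  /-- the three-term Grassmann–Plücker relations -/
  ax5 : ∀ x a b c d, [x, a, b, c, d].Nodup →
    ¬ (χ x a b * χ x c d = -(χ x a c * χ x b d) ∧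
       -(χ x a c * χ x b d) = χ x a d * χ x b c)
  /-- acyclicity -/
  ax4 : ∀ a b c d, [a, b, c, d].Nodup →
    ¬ (χ b c d = -χ a c d ∧ -χ a c d = χ a b d ∧ χ a b d = -χ a b c)

/-- The orientable arrangement `A` realizes `χ`. -/
def Realizes {n : ℕ} (A : Fin n → Set Pl) (χ : Fin n → Fin n → Fin n → ℤ) : Prop :=
  IsOrientable A ∧ ∀ i j k, [i, j, k].Nodup → chiA A i j k = χ i j k

/-! ## Signotopes and the special order types -/

/-- At most one sign change in a sequence of four signs. -/
def Mono4 (a b c d : ℤ) : Prop := (a = c → b = a) ∧ (a = d → b = a ∧ c = a) ∧ (b = d → c = b)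

/-- A signotope of rank 3 on `ℕ`. -/
structure IsSignotope (f : ℕ → ℕ → ℕ → ℤ) : Prop where
  /-- values -/
  val : ∀ p q r, p < q → q < r → f p q r = 1 ∨ f p q r = -1
  /-- monotonicity on four elements -/
  mono : ∀ p q r u, p < q → q < r → r < u → Mono4 (f p q r) (f p q u) (f p r u) (f q r u)

/-- The alternating extension of a function on sorted triples. -/
def alt (f : ℕ → ℕ → ℕ → ℤ) (p q r : ℕ) : ℤ :=
  if p < q then (if q < r then f p q r else if p < r then -f p r q else f r p q)
  else (if p < r then -f q p r else if q < r then f q r p else -f r q p)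

/-- The sign of a sorted triple `a < b < c` of clusters: the sign of `a + b + c - 12 q`; for
the triples of sum `12 q` it is prescribed by the set `W`. -/
def xs (q : ℕ) (W : Finset (ℕ × ℕ)) (a b c : ℕ) : ℤ :=
  if a + b + c < 12 * q then -1 else if 12 * q < a + b + c then 1
  else if (b, c) ∈ W then 1 else -1

/-- The sign of a sorted triple `p < r < s` of elements; element `p` is number `p % 4` of
the cluster `p / 4`. -/
def xf (q : ℕ) (W : Finset (ℕ × ℕ)) (p r s : ℕ) : ℤ :=
  if p / 4 < r / 4 then (if r / 4 < s / 4 then xs q W (p / 4) (r / 4) (s / 4) else 1)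
  else (if r / 4 < s / 4 then -1 else if p % 4 = 1 then 1 else -1)

/-- The order type `X_W`. -/
def chiW (q : ℕ) (W : Finset (ℕ × ℕ)) {n : ℕ} (i j k : Fin n) : ℤ :=
  alt (xf q W) i j k

/-- The signs of triples of clusters. -/
def chi0 (q : ℕ) (W : Finset (ℕ × ℕ)) (a b c : ℕ) : ℤ := alt (xs q W) a b c

/-! ## Facts about families of periodic functions -/

/-- `f` and `g` cross exactly twice modulo `2π`: from `f > g` to `f < g` at `s` and back at
`t`. -/
def Cross2 (f g : ℝ → ℝ) (s t : ℝ) : Prop :=
  s < t ∧ t < s + 2 * π ∧ f s = g s ∧ f t = g t ∧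
    (∀ θ, s < θ → θ < t → f θ < g θ) ∧ (∀ θ, t < θ → θ < s + 2 * π → g θ < f θ)

/-- What an orientable arrangement with orientations `χ` gives for its support functions. -/
structure Facts {ι : Type} (h : ι → ℝ → ℝ) (χ : ι → ι → ι → ℤ) : Prop where
  /-- continuity -/
  cont : ∀ i, Continuous (h i)
  /-- periodicity -/
  per : ∀ i θ, h i (θ + 2 * π) = h i θ
  /-- two crossings for every pair, and the position of all other curves there -/
  cross : ∀ i j, i ≠ j → ∃ s t, Cross2 (h i) (h j) s t ∧ ∀ k, k ≠ i → k ≠ j →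
    (χ i j k = 1 → h k s < h i s ∧ h i t < h k t) ∧
    (χ i j k = -1 → h i s < h k s ∧ h k t < h i t)

/-- The same for clusters of four functions. -/
structure CFacts {T : Type} (h : T → Fin 4 → ℝ → ℝ) (χ : T → T → T → ℤ) : Prop where
  /-- continuity -/
  cont : ∀ a i, Continuous (h a i)
  /-- periodicity -/
  per : ∀ a i θ, h a i (θ + 2 * π) = h a i θ
  /-- values -/
  val : ∀ a b c, a ≠ b → a ≠ c → b ≠ c → χ a b c = 1 ∨ χ a b c = -1
  /-- crossings of elements of different clusters -/
  cross : ∀ a b, a ≠ b → ∀ i j, ∃ s t, Cross2 (h a i) (h b j) s t ∧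
    ∀ c, c ≠ a → c ≠ b → ∀ k,
      (χ a b c = 1 → h c k s < h a i s ∧ h a i t < h c k t) ∧
      (χ a b c = -1 → h a i s < h c k s ∧ h c k t < h a i t)
  /-- crossings inside a cluster -/
  self : ∀ a i j, i ≠ j → ∃ s t, Cross2 (h a i) (h a j) s t
  /-- element 2 is an interior element -/
  inner_lo : ∀ a θ, ∃ i, i ≠ 2 ∧ h a i θ ≤ h a 2 θ
  inner_hi : ∀ a θ, ∃ i, i ≠ 2 ∧ h a 2 θ ≤ h a i θ

/-- `y` lies in the band of the four functions at `θ`. -/
def InBand (A : Fin 4 → ℝ → ℝ) (θ y : ℝ) : Prop := (∃ i, A i θ ≤ y) ∧ (∃ i, y ≤ A i θ)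

/-! ## Polygons -/

/-- Some pair `(V i, U j)` supports `V ∪ U` from the right, with all of `Z` strictly on the left
side. -/
def Pos (V U Z : Fin 6 → Pl) : Prop :=
  ∃ i j, (∀ l, 0 ≤ det3 (V i) (U j) (V l)) ∧ (∀ l, 0 ≤ det3 (V i) (U j) (U l)) ∧
    ∀ l, 0 < det3 (V i) (U j) (Z l)

end Pool.Agent.helper51.OT
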