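import Mathlib
import Pool.Agent.helper51.OT.Defs

/-!
# Project OT, module CrB: basic facts about `Cross2`, existence of the two crossings

`Cross2 f g s t`: `s < t < s + 2π`, `f = g` at `s, t`, `f < g` on `(s, t)`, `g < f` on `(t, s + 2π)`.
`f`, `g` are `2π`-periodic (`hf`, `hg`); for shifts by `n * (2π)` with `n : ℤ` use
`Function.Periodic.int_mul` or `Function.Periodic.add_int_mul_eq`-like lemmas (prove once as `CrB_shift`).

* `cross2_shift`, `cross2_swap`: immediate.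
* `cross2_zero`: every real `θ` is `θ₀ + n (2π)` with `s ≤ θ₀ < s + 2π` (`existsUnique_add_zsmul_mem_Ico` or `toIcoMod`); on
  `[s, s + 2π)` the zeros of `f - g` are exactly `s` and `t`.
* `cross2_cases`: the same with the three possible positions of `θ₀` (in `{s, t}`, in `(s,t)`, in `(t, s + 2π)`).
* `exists_cross2`: `f, g` continuous and periodic, the zeros of `f - g` are exactly the reals in the two different classes
  `s₁, s₂ : Real.Angle`, and `f - g` changes sign at each zero (as in `IsArrangement.cross`).  Let `a₀ < b₀` be the two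
  representatives in `[0, 2π)`.  On `(a₀, b₀)` and on `(b₀, a₀ + 2π)` there are no zeros so the continuous function `f - g` has a constant
  sign on each (intermediate value theorem), and at `b₀` it changes sign, so the two signs are opposite.  If `f < g` on
  `(a₀, b₀)` take `(s, t) = (a₀, b₀)`, otherwise `(s, t) = (b₀, a₀ + 2π)` (then `f < g` on `(b₀, a₀ + 2π)` and `f > g` on
  `(a₀ + 2π, b₀ + 2π)` by periodicity).
-/

set_option autoImplicit false

namespace Pool.Agent.helper51.OT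

open Real Set

theorem cross2_shift {f g : ℝ → ℝ} (hf : ∀ θ, f (θ + 2 * π) = f θ)
    (hg : ∀ θ, g (θ + 2 * π) = g θ) {s t : ℝ} (h : Cross2 f g s t) (n : ℤ) :
    Cross2 f g (s + n * (2 * π)) (t + n * (2 * π)) := by
  sorry

theorem cross2_swap {f g : ℝ → ℝ} (hf : ∀ θ, f (θ + 2 * π) = f θ)
    (hg : ∀ θ, g (θ + 2 * π) = g θ) {s t : ℝ} (h : Cross2 f g s t) :
    Cross2 g f t (s + 2 * π) := by
  sorry

theorem cross2_zero {f g : ℝ → ℝ} (hf : ∀ θ, f (θ + 2 * π) = f θ)
    (hg : ∀ θ, g (θ + 2 * π) = g θ) {s t : ℝ} (h : Cross2 f g s t) {θ : ℝ} (hθ : f θ = g θ) :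
    ∃ n : ℤ, θ = s + n * (2 * π) ∨ θ = t + n * (2 * π) := by
  sorry

theorem cross2_pos {f g : ℝ → ℝ} (hf : ∀ θ, f (θ + 2 * π) = f θ)
    (hg : ∀ θ, g (θ + 2 * π) = g θ) {s t : ℝ} (h : Cross2 f g s t) {θ : ℝ} (hθ : g θ < f θ) :
    ∃ n : ℤ, t + n * (2 * π) < θ ∧ θ < s + 2 * π + n * (2 * π) := by
  sorry

theorem exists_cross2 {f g : ℝ → ℝ} (cf : Continuous f) (cg : Continuous g)
    (hf : ∀ θ, f (θ + 2 * π) = f θ) (hg : ∀ θ, g (θ + 2 * π) = g θ) {s₁ s₂ : Real.Angle}
    (hne : s₁ ≠ s₂) (hz : ∀ t : ℝ, f t = g t ↔ (t : Real.Angle) = s₁ ∨ (t : Real.Angle) = s₂)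
    (hch : ∀ t : ℝ, f t = g t →
      ∃ ε > 0, (∀ s : ℝ, 0 < s → s < ε → f (t - s) < g (t - s) ∧ g (t + s) < f (t + s)) ∨
        (∀ s : ℝ, 0 < s → s < ε → g (t - s) < f (t - s) ∧ f (t + s) < g (t + s))) :
    ∃ s t, Cross2 f g s t := by
  sorry

end Pool.Agent.helper51.OT
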