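import Mathlib
import Pool.Agent.helper51.OT.CrB

/-!
# Project OT, module HEnv: the envelope argument

`f, g, h` continuous `2π`-periodic functions without a common zero of all differences (`hno`); for each pair the crossings at
which the third function is below form at most one class modulo `2π` (`ufg`, `ugh`, `ufh`).  `f`, `g`, `h` are strictly on top at
`t₁ < t₂ < t₃ < t₁ + 2π`.

`exists_top_cross`: there is `t ∈ (t₁, t₂)` with `f t = g t > h t`.
Proof.  By the intermediate value theorem there is `c₁ ∈ (t₁, t₂)` with `f = max g h` at `c₁` (positive difference at `t₁`, negative at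
`t₂`), i.e. (with `hno`) `f = g > h` or `f = h > g` at `c₁`; and `c₂ ∈ (t₁, t₂)` with `g = max f h`, i.e. `f = g > h` or `g = h > f`.  If the
first alternative holds for `c₁` or `c₂` we are done.  Otherwise `f = h > g` at `c₁` and `g = h > f` at `c₂`, both in `(t₁, t₂)`.  In
`(t₂, t₃)` there is a zero `c₃` of `h - max f g` (negative at `t₂`, positive at `t₃`): `h = f > g` or `h = g > f` at `c₃`.  By the
uniqueness `ufh` resp. `ugh`, `c₃` is congruent to `c₁` resp. `c₂` modulo `2π`; but `0 < c₃ - c₁ < 2π`, `0 < c₃ - c₂ < 2π`,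
a contradiction.

`below_at_down`: let moreover `Cross2 f g s t`.  Then `h s < f s`.
Proof.  Let `c ∈ (t₁, t₂)` with `f c = g c > h c`.  By `cross2_zero` (CrB) `c = s + 2πn` or `c = t + 2πn`.  In the first case we are done
by periodicity.  In the second case replace `(s, t)` by `(s + 2πn, t + 2πn)` (`cross2_shift`), so `c = t`.  `t₂ > t` and `f t₂ < g t₂`, while
`f > g` on `(t, s + 2π)` and `f = g` at `s + 2π`; so `t₂ > s + 2π`.  `t₁ < t` and `f t₁ > g t₁`, while `f < g` on `(s, t)`, `f = g` at `s`; so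
`t₁ < s`.  Hence `t₂ - t₁ > 2π`, a contradiction to `t₂ < t₃ < t₁ + 2π`.
-/

set_option autoImplicit false

namespace Pool.Agent.helper51.OT

open Real Set

theorem exists_top_cross {f g h : ℝ → ℝ} (cf : Continuous f) (cg : Continuous g)
    (ch : Continuous h) (hno : ∀ θ, ¬ (f θ = g θ ∧ g θ = h θ))
    (ufh : ∀ θ θ', f θ = h θ → g θ < f θ → f θ' = h θ' → g θ' < f θ' →
      (θ : Real.Angle) = (θ' : Real.Angle))
    (ugh : ∀ θ θ', g θ = h θ → f θ < g θ → g θ' = h θ' → f θ' < g θ' →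
      (θ : Real.Angle) = (θ' : Real.Angle))
    {t₁ t₂ t₃ : ℝ} (h12 : t₁ < t₂) (h23 : t₂ < t₃) (h31 : t₃ < t₁ + 2 * π)
    (top1 : g t₁ < f t₁ ∧ h t₁ < f t₁) (top2 : f t₂ < g t₂ ∧ h t₂ < g t₂)
    (top3 : f t₃ < h t₃ ∧ g t₃ < h t₃) :
    ∃ t, t₁ < t ∧ t < t₂ ∧ f t = g t ∧ h t < f t := by
  sorry

theorem below_at_down {f g h : ℝ → ℝ} (cf : Continuous f) (cg : Continuous g)
    (ch : Continuous h) (pf : ∀ θ, f (θ + 2 * π) = f θ) (pg : ∀ θ, g (θ + 2 * π) = g θ)
    (ph : ∀ θ, h (θ + 2 * π) = h θ) (hno : ∀ θ, ¬ (f θ = g θ ∧ g θ = h θ))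
    (ufh : ∀ θ θ', f θ = h θ → g θ < f θ → f θ' = h θ' → g θ' < f θ' →
      (θ : Real.Angle) = (θ' : Real.Angle))
    (ugh : ∀ θ θ', g θ = h θ → f θ < g θ → g θ' = h θ' → f θ' < g θ' →
      (θ : Real.Angle) = (θ' : Real.Angle))
    {t₁ t₂ t₃ : ℝ} (h12 : t₁ < t₂) (h23 : t₂ < t₃) (h31 : t₃ < t₁ + 2 * π)
    (top1 : g t₁ < f t₁ ∧ h t₁ < f t₁) (top2 : f t₂ < g t₂ ∧ h t₂ < g t₂)
    (top3 : f t₃ < h t₃ ∧ g t₃ < h t₃) {s t : ℝ} (hc : Cross2 f g s t) :
    h s < f s := by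
  sorry

end Pool.Agent.helper51.OT
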