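import Mathlib
import Pool.Agent.helper51.OT.Defs

/-!
# Project OT, module HHom: homeomorphisms preserving `+∞` preserve above and below

`f, g : Real.Angle → ℝ` continuous, `φ` a self-homeomorphism of the cylinder, `PreservesTop φ`, `φ` maps the graph of `f`
onto the graph of `g`.  Then points above the graph of `f` go to points above the graph of `g`, and points below to points below.

Proof.  `up(f) = {z | f z.1 < z.2}` is connected: it is the image of the connected set `Real.Angle × (0, ∞)` under the
continuous map `(θ, t) ↦ (θ, f θ + t)` (`Real.Angle` is connected: a quotient of `ℝ`, image of `ℝ` under the continuous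
surjection `Real.Angle.coe`; or `AddCircle.pathConnectedSpace`); `down(f)` similarly.  `φ '' up(f)` is connected and disjoint from
the graph of `g` (injectivity of `φ`), so it is contained in the union of the two disjoint open sets `up(g)`, `down(g)`, and if it
has a point in `up(g)` then it is contained in `up(g)` (`IsPreconnected.subset_left_of_subset_union`).

There is such a point: let `K ≥ 0` be a bound of `|g|` (`Real.Angle` is compact: `AddCircle.compactSpace`-type instance, or image of
`[0, 2π]`).  The set `{z | |z.2| ≤ K}` is compact, so is its preimage under `φ` (image under `φ.symm`), hence its second coordinates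
are bounded by some `Y₁`.  Take `y` larger than `Y₁`, than the `Y` of `PreservesTop φ` and than `f 0`: the point `(0, y)` is in `up(f)`,
`φ(0, y)` has positive second coordinate and `|second coordinate| > K`, so it is `> K ≥ g`.

If `φ '' down(f)` were not contained in `down(g)`, it would be contained in `up(g)` (the same connectedness argument); then
`down(g)` (nonempty) would be disjoint from the images of `up(f)`, `down(f)` and the graph of `f`, contradicting surjectivity.
-/

set_option autoImplicit false

namespace Pool.Agent.helper51.OT

open Real Set

theorem hom_above_below {f g : Real.Angle → ℝ} (hf : Continuous f) (hg : Continuous g)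
    (φ : Cyl ≃ₜ Cyl) (htop : PreservesTop φ)
    (hφ : φ '' {z : Cyl | z.2 = f z.1} = {z : Cyl | z.2 = g z.1}) :
    (∀ z : Cyl, f z.1 < z.2 → g (φ z).1 < (φ z).2) ∧
      (∀ z : Cyl, z.2 < f z.1 → (φ z).2 < g (φ z).1) := by
  sorry

end Pool.Agent.helper51.OT
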