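import Mathlib
import Pool.Agent.helper51.OT.Defs

/-!
# Project OT, module HSup: support functions

Standard facts.  `supp A t = sSup ((fun p => ip p t) '' A)` and `(p, t) ↦ ip p t` is jointly continuous.
* `ip_le_supp`, `exists_ip_eq`: `IsCompact.image`, `IsCompact.bddAbove`, `le_csSup`, `IsCompact.sSup_mem` (or
  `IsCompact.exists_isMaxOn`).
* `supp_continuous`, `suppA_continuous`: `IsCompact.continuous_sSup` (`Mathlib/Topology/Order/Compact.lean`) with the jointly
  continuous function; `Real.Angle.continuous_cos`, `Real.Angle.continuous_sin`.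
* `suppA` is the support function on `Real.Angle`; `Real.Angle.cos_coe`, `Real.Angle.sin_coe`.
* `curve_eq`: every `θ : Real.Angle` is the class of a real number (`Real.Angle.induction_on` or
  `QuotientAddGroup.mk_surjective`).
* `ip_add_pi`: `cos (t + π) = - cos t`, `sin (t + π) = - sin t`.
-/

set_option autoImplicit false

namespace Pool.Agent.helper51.OT

open Real Set

/-- The support function on the circle `Real.Angle`. -/
noncomputable def suppA (A : Set Pl) (θ : Real.Angle) : ℝ :=
  sSup ((fun p : Pl => p.1 * θ.cos + p.2 * θ.sin) '' A)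

theorem ip_continuous : Continuous fun z : Pl × ℝ => ip z.1 z.2 := by
  unfold ip
  fun_prop

theorem ip_add_pi (p : Pl) (t : ℝ) : ip p (t + π) = -ip p t := by
  unfold ip
  rw [Real.cos_add_pi, Real.sin_add_pi]
  ring

theorem ip_add_two_pi (p : Pl) (t : ℝ) : ip p (t + 2 * π) = ip p t := by
  unfold ip
  rw [Real.cos_add_two_pi, Real.sin_add_two_pi]

theorem HSup_cont (t : ℝ) : Continuous fun p : Pl => ip p t := by
  unfold ip
  fun_prop

theorem HSup_bdd {A : Set Pl} (hA : IsCompact A) (t : ℝ) :
    BddAbove ((fun p => ip p t) '' A) :=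
  (hA.image (HSup_cont t)).bddAbove

theorem ip_le_supp {A : Set Pl} (hA : IsCompact A) {p : Pl} (hp : p ∈ A) (t : ℝ) :
    ip p t ≤ supp A t :=
  le_csSup (HSup_bdd hA t) ⟨p, hp, rfl⟩

theorem exists_ip_eq {A : Set Pl} (hA : IsCompact A) (hne : A.Nonempty) (t : ℝ) :
    ∃ p ∈ A, ip p t = supp A t := by
  have h := (hA.image (HSup_cont t)).sSup_mem (hne.image _)
  obtain ⟨p, hp, hp2⟩ := h
  exact ⟨p, hp, hp2⟩

theorem supp_continuous {A : Set Pl} (hA : IsCompact A) : Continuous (supp A) := by
  have h := IsCompact.continuous_sSup (f := fun (t : ℝ) (p : Pl) => ip p t) hA (by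
    show Continuous fun z : ℝ × Pl => ip z.2 z.1
    unfold ip
    fun_prop)
  exact h

theorem supp_periodic (A : Set Pl) (t : ℝ) : supp A (t + 2 * π) = supp A t := by
  unfold supp
  simp only [ip_add_two_pi]

theorem supp_mono {A B : Set Pl} (hA : A.Nonempty) (hB : IsCompact B) (hAB : A ⊆ B) (t : ℝ) :
    supp A t ≤ supp B t :=
  csSup_le_csSup (HSup_bdd hB t) (hA.image _) (Set.image_mono hAB)

theorem supp_singleton (P : Pl) (t : ℝ) : supp {P} t = ip P t := by
  unfold supp
  rw [Set.image_singleton, csSup_singleton]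

theorem suppA_coe (A : Set Pl) (t : ℝ) : suppA A (t : Real.Angle) = supp A t := by
  unfold suppA supp ip
  simp only [Real.Angle.cos_coe, Real.Angle.sin_coe]

theorem suppA_continuous {A : Set Pl} (hA : IsCompact A) : Continuous (suppA A) := by
  have h := IsCompact.continuous_sSup
    (f := fun (θ : Real.Angle) (p : Pl) => p.1 * θ.cos + p.2 * θ.sin) hA (by
    show Continuous fun z : Real.Angle × Pl => z.2.1 * z.1.cos + z.2.2 * z.1.sin
    have hc : Continuous fun z : Real.Angle × Pl => z.1.cos :=
      Real.Angle.continuous_cos.comp continuous_fst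
    have hs : Continuous fun z : Real.Angle × Pl => z.1.sin :=
      Real.Angle.continuous_sin.comp continuous_fst
    exact ((continuous_fst.comp continuous_snd).mul hc).add
      ((continuous_snd.comp continuous_snd).mul hs))
  exact h

theorem curve_eq (A : Set Pl) : curve A = {z : Cyl | z.2 = suppA A z.1} := by
  ext z
  constructor
  · rintro ⟨t, rfl⟩
    exact (suppA_coe A t).symm
  · intro hz
    obtain ⟨t, ht⟩ : ∃ t : ℝ, (t : Real.Angle) = z.1 := QuotientAddGroup.mk_surjective z.1
    refine ⟨t, ?_⟩
    have h1 : z.2 = suppA A z.1 := hz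
    rw [← ht, suppA_coe] at h1
    exact Prod.ext ht h1.symm

end Pool.Agent.helper51.OT
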