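import Mathlib
import Pool.Agent.helper51.OT.HSup

/-!
# Project OT, module HPts: the support curves of three non-collinear points

`suppA {P} θ = P.1 cos θ + P.2 sin θ`.  For `P ≠ Q` (which follows from `det3 P Q R ≠ 0`) let
`(P - Q) = ρ (cos α, sin α)`, `ρ > 0` (polar coordinates, e.g. `Complex.norm_mul_cos_arg`, `Complex.norm_mul_sin_arg`
for the complex number with coordinates `P - Q`).  Then
`suppA {P} θ - suppA {Q} θ = ρ cos (θ - α)`, which vanishes exactly at the two angles `α + π/2`, `α - π/2`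
(`Real.Angle.cos_eq_zero_iff` : `cos θ = 0 ↔ θ = (π/2) ∨ θ = (-π/2)` as angles), and these are different.  At an angle `θ₀` of these two,
`suppA {P} θ₀ - suppA {R} θ₀ = ⟨P - R, e(θ₀)⟩ ≠ 0`: otherwise `P - Q` and `P - R` are both orthogonal to `e(θ₀)`, hence parallel and
`det3 P Q R = 0`.  At the antipodal angle `θ₀ + π` this difference has the opposite sign.  So one of the two angles is `s₁` (there
`R` is below) and the other is `s₂`.
-/

set_option autoImplicit false

namespace Pool.Agent.helper51.OT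

open Real Set

theorem HPts_suppA (P : Pl) (θ : Real.Angle) :
    suppA {P} θ = P.1 * θ.cos + P.2 * θ.sin := by
  unfold suppA
  rw [Set.image_singleton, csSup_singleton]

theorem HPts_polar {a b : ℝ} (h : a ≠ 0 ∨ b ≠ 0) :
    ∃ (ρ : ℝ) (s : Real.Angle), 0 < ρ ∧ ρ * s.cos = -b ∧ ρ * s.sin = a := by
  have hz : (⟨-b, a⟩ : ℂ) ≠ 0 := by
    intro h0
    have h1 := congrArg Complex.re h0
    have h2 := congrArg Complex.im h0
    simp only [Complex.zero_re, Complex.zero_im, neg_eq_zero] at h1 h2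
    rcases h with h | h
    · exact h h2
    · exact h h1
  refine ⟨‖(⟨-b, a⟩ : ℂ)‖, ((Complex.arg ⟨-b, a⟩ : ℝ) : Real.Angle), norm_pos_iff.2 hz, ?_, ?_⟩
  · rw [Real.Angle.cos_coe]
    exact Complex.norm_mul_cos_arg _
  · rw [Real.Angle.sin_coe]
    exact Complex.norm_mul_sin_arg _

theorem HPts_zero {a b ρ : ℝ} {s : Real.Angle} (hρ : 0 < ρ) (h1 : ρ * s.cos = -b)
    (h2 : ρ * s.sin = a) (θ : Real.Angle) :
    a * θ.cos + b * θ.sin = 0 ↔ θ = s ∨ θ = s + π := by
  have h3 : a * θ.cos + b * θ.sin = ρ * (s - θ).sin := by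
    rw [sub_eq_add_neg, Real.Angle.sin_add, Real.Angle.cos_neg, Real.Angle.sin_neg]
    linear_combination θ.sin * h1 - θ.cos * h2
  rw [h3, mul_eq_zero_iff_left hρ.ne', Real.Angle.sin_eq_zero_iff, sub_eq_zero]
  constructor
  · rintro (h | h)
    · exact Or.inl h.symm
    · right
      rw [sub_eq_iff_eq_add] at h
      rw [h, add_comm (π : Real.Angle) θ, add_assoc, Real.Angle.coe_pi_add_coe_pi, add_zero]
  · rintro (h | h)
    · exact Or.inl h.symm
    · right
      rw [h, sub_add_cancel_left, Real.Angle.neg_coe_pi]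

theorem HPts_ne (s : Real.Angle) : s ≠ s + π := by
  intro h
  exact Real.Angle.pi_ne_zero (left_eq_add.1 h)

theorem points_cross {P Q R : Pl} (h : det3 P Q R ≠ 0) :
    ∃ s₁ s₂ : Real.Angle, s₁ ≠ s₂ ∧
      (∀ θ : Real.Angle, suppA {P} θ = suppA {Q} θ ↔ θ = s₁ ∨ θ = s₂) ∧
      suppA {R} s₁ < suppA {P} s₁ ∧ suppA {P} s₂ < suppA {R} s₂ := by
  have hPQ : P.1 - Q.1 ≠ 0 ∨ P.2 - Q.2 ≠ 0 := by
    by_contra hcon
    push Not at hcon
    apply h
    unfold det3
    have h1 : Q.1 = P.1 := by linarith [hcon.1]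
    have h2 : Q.2 = P.2 := by linarith [hcon.2]
    rw [h1, h2]
    ring
  obtain ⟨ρ, s, hρ, hc, hs⟩ := HPts_polar hPQ
  have hiff : ∀ θ : Real.Angle, suppA {P} θ = suppA {Q} θ ↔ θ = s ∨ θ = s + π := by
    intro θ
    rw [← HPts_zero hρ hc hs θ, HPts_suppA, HPts_suppA, ← sub_eq_zero]
    constructor
    · intro h1
      linear_combination h1
    · intro h1
      linear_combination h1
  have hv : ρ * (suppA {P} s - suppA {R} s) = det3 P Q R := by
    rw [HPts_suppA, HPts_suppA]
    unfold det3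
    linear_combination (P.1 - R.1) * hc + (P.2 - R.2) * hs
  have hv' : suppA {P} (s + π) - suppA {R} (s + π) = -(suppA {P} s - suppA {R} s) := by
    rw [HPts_suppA, HPts_suppA, HPts_suppA, HPts_suppA, Real.Angle.cos_add_pi,
      Real.Angle.sin_add_pi]
    ring
  rcases lt_or_gt_of_ne h with hneg | hpos
  · have h1 : suppA {P} s - suppA {R} s < 0 := by
      by_contra hcon
      have := mul_nonneg hρ.le (not_lt.1 hcon)
      linarith
    refine ⟨s + π, s, (HPts_ne s).symm, fun θ => ?_, by linarith, by linarith⟩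
    rw [hiff θ]
    exact or_comm
  · have h1 : 0 < suppA {P} s - suppA {R} s := by
      by_contra hcon
      have := mul_nonpos_of_nonneg_of_nonpos hρ.le (not_lt.1 hcon)
      linarith
    exact ⟨s, s + π, HPts_ne s, hiff, by linarith, by linarith⟩

end Pool.Agent.helper51.OT
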