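import Mathlib
import Pool.Agent.helper51.OT.HHom
import Pool.Agent.helper51.OT.HPts

/-!
# Project OT, module HTri: crossings in an orientable triple

Let `(A, B, C)` be an orientable triple of bodies: a homeomorphism `φ` preserving `+∞` maps the curves of `A, B, C` onto the curves
of non-collinear points `P, Q, R` (`SameType` for the indices `0, 1, 2` of `Fin 3`; `Matrix.cons_val_zero` etc.).  By `curve_eq` (HSup)
the curves are graphs of the continuous functions `suppA _`.  The crossings of `A` and `B` are the points `z` of the cylinder on both curves;
`φ` maps them bijectively onto the crossings of `P` and `Q`, which are `(s₁, suppA {P} s₁)`, `(s₂, suppA {P} s₂)` for the angles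
`s₁ ≠ s₂` of `points_cross` (HPts).  So `A` and `B` cross exactly at two angles: if `z₁, z₂` are the preimages under `φ`, then
`suppA A θ = suppA B θ ↔ θ = z₁.1 ∨ θ = z₂.1`, and `z₁.1 ≠ z₂.1` (points on the graph of `suppA A` with the same first coordinate are
equal).  At `z₁` the curve of `R` is below `φ z₁`, so the curve of `C` is below `z₁`: otherwise `z₁` is on or below the curve of `C`, and then
`φ z₁` would be on or below the curve of `R` (`hom_above_below`, HHom, applied to `f = suppA C`, `g = suppA {R}`).  The same for `z₂` with
above.
-/

set_option autoImplicit false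

namespace Pool.Agent.helper51.OT

open Real Set

theorem triple_cross {A B C : Set Pl} (hA : IsBody A) (hB : IsBody B) (hC : IsBody C)
    (h : OrientableTriple A B C) :
    ∃ s₁ s₂ : Real.Angle, s₁ ≠ s₂ ∧
      (∀ θ : Real.Angle, suppA A θ = suppA B θ ↔ θ = s₁ ∨ θ = s₂) ∧
      suppA C s₁ < suppA A s₁ ∧ suppA A s₂ < suppA C s₂ := by
  sorry

end Pool.Agent.helper51.OT
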