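import Mathlib
import Pool.Agent.helper51.OT.HTri
import Pool.Agent.helper51.OT.HEnv

/-!
# Project OT, module HFac: the facts of a realizing arrangement (assembly)

Let `A` be an arrangement that realizes the simple order type `χ`; `h i = supp (A i)`.

* Continuity, periodicity: `HSup`.
* Pair `i ≠ j`: there is a third index `k` (`3 ≤ n`), so `triple_cross` (HTri) for `(A i, A j, A k)` gives two angles `s₁ ≠ s₂` which are
  exactly the zeros (`suppA_coe`); `IsArrangement.cross` gives the sign changes; `exists_cross2` (CrB) gives
  `Cross2 (h i) (h j) s t`.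
* `chi_pos`: let `χ i j k = 1`, `i, j, k` distinct, `Cross2 (h i) (h j) s t`.  Then `h k s < h i s` and `h i t < h k t`.
  Proof.  `chiA A i j k = 1`, so `Ccw (A i) (A j) (A k)`: tops at `t₁ < t₂ < t₃ < t₁ + 2π`.  The hypotheses of `below_at_down`
  (HEnv): `hno` is `IsArrangement.triple` (a common value at `θ` gives a point on three curves).  `ufh`: for the pair `(i, k)` and
  third `j`, `triple_cross` (all ordered triples are orientable) gives `s₁ ≠ s₂` with `h j < h i` at `s₁` and `h i < h j` at `s₂`, so a zero of
  `h i - h k` at which `h j < h i` is in the class `s₁`.  `ugh` the same for the pair `(j, k)`, third `i`.  So `h k s < h i s`.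
  For `t`: `triple_cross` for `(i, j, k)` gives `s₁, s₂`; `s` is in the class `s₁` (as `h k s < h i s`; at `s₂` the third curve is above), and `t` is in
  a different class than `s` since `0 < t - s < 2π` (`Real.Angle.angle_eq_iff_two_pi_dvd_sub`), so `t` is in the class `s₂`, where
  `h i < h k`.
* `χ i j k = -1`: then `χ j i k = 1` (`swap12`), and `Cross2 (h j) (h i) t (s + 2π)` (`cross2_swap`); by `chi_pos` for `(j, i, k)`:
  `h k t < h j t = h i t` and `h j (s + 2π) < h k (s + 2π)`, i.e. `h i s = h j s < h k s`.
-/

set_option autoImplicit false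

namespace Pool.Agent.helper51.OT

open Real Set

theorem facts_of_realizes {n : ℕ} {A : Fin n → Set Pl} {χ : Fin n → Fin n → Fin n → ℤ}
    (hA : IsArrangement A) (hχ : IsSimpleOrderType χ) (hR : Realizes A χ) :
    Facts (fun i => supp (A i)) χ := by
  sorry

end Pool.Agent.helper51.OT
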