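import Mathlib
import Pool.Agent.helper51.OT.Defs

/-!
# Project OT, module PBas: polynomial functions, their differentials, Jacobians

Everything is standard calculus.

* `hasStrictFDerivAt_eval`: induction on `p` (`MvPolynomial.induction_on`: `C c`, `p + q`, `p * X j`),
  using `pderiv` rules (`Derivation.leibniz`, `pderiv_C`, `pderiv_X_self`, `pderiv_X_of_ne`); compare
  the same proof over `ℂ` in `Pool/Agent/helper82/Sch/Count.lean` (`hasFDeriv_poly`, there with
  `HasFDerivAt` and `aeval`).  The differential of `y ↦ y j` is `ContinuousLinearMap.proj j`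
  (`ContinuousLinearMap.hasStrictFDerivAt`), products: `HasStrictFDerivAt.mul`.
* `continuous_eval`: from the strict differentiability (or `MvPolynomial.continuous_eval`).
* `hasStrictFDerivAt_sys`: `hasStrictFDerivAt_pi'`/`hasStrictFDerivAt_pi`.
* `det_jacL`: `jacL g x` is `Matrix.toLin' (jac g x)` as a linear map
  (`(jacL g x) v i = ∑ j, ∂_j g_i (x) v_j`); `LinearMap.det_toLin'`, and
  `ContinuousLinearMap.det` is by definition `LinearMap.det` of the underlying linear map.
-/

set_option autoImplicit false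

namespace Pool.Agent.helper51.OT

open MvPolynomial

variable {σ : Type} [Fintype σ]

/-- The differential of the polynomial function of `p` at `x`. -/
noncomputable def dP (p : MvPolynomial σ ℝ) (x : σ → ℝ) : (σ → ℝ) →L[ℝ] ℝ :=
  ∑ j, (eval x (pderiv j p)) • (ContinuousLinearMap.proj j : (σ → ℝ) →L[ℝ] ℝ)

/-- The Jacobian matrix of a system of polynomials. -/
noncomputable def jac (g : σ → MvPolynomial σ ℝ) (x : σ → ℝ) : Matrix σ σ ℝ :=
  Matrix.of fun i j => eval x (pderiv j (g i))

/-- The Jacobian as a continuous linear map. -/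
noncomputable def jacL (g : σ → MvPolynomial σ ℝ) (x : σ → ℝ) : (σ → ℝ) →L[ℝ] (σ → ℝ) :=
  ContinuousLinearMap.pi fun i => dP (g i) x

theorem dP_apply (p : MvPolynomial σ ℝ) (x v : σ → ℝ) :
    dP p x v = ∑ j, eval x (pderiv j p) * v j := by
  simp [dP, ContinuousLinearMap.sum_apply]

theorem PBas_dP_C (c : ℝ) (x : σ → ℝ) : dP (C c : MvPolynomial σ ℝ) x = 0 := by
  ext v
  rw [dP_apply]
  simp

theorem PBas_dP_add (p q : MvPolynomial σ ℝ) (x : σ → ℝ) : dP (p + q) x = dP p x + dP q x := by
  refine ContinuousLinearMap.ext fun v => ?_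
  rw [ContinuousLinearMap.add_apply, dP_apply, dP_apply, dP_apply, ← Finset.sum_add_distrib]
  refine Finset.sum_congr rfl fun j _ => ?_
  rw [map_add, map_add, add_mul]

theorem PBas_dP_mul (p q : MvPolynomial σ ℝ) (x : σ → ℝ) :
    dP (p * q) x = eval x p • dP q x + eval x q • dP p x := by
  refine ContinuousLinearMap.ext fun v => ?_
  rw [ContinuousLinearMap.add_apply, ContinuousLinearMap.smul_apply,
    ContinuousLinearMap.smul_apply, dP_apply, dP_apply, dP_apply, smul_eq_mul, smul_eq_mul,
    Finset.mul_sum, Finset.mul_sum, ← Finset.sum_add_distrib]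
  refine Finset.sum_congr rfl fun j _ => ?_
  rw [Derivation.leibniz, map_add, smul_eq_mul, smul_eq_mul, map_mul, map_mul]
  ring

theorem PBas_dP_X (j : σ) (x : σ → ℝ) :
    dP (X j : MvPolynomial σ ℝ) x = (ContinuousLinearMap.proj j : (σ → ℝ) →L[ℝ] ℝ) := by
  classical
  refine ContinuousLinearMap.ext fun v => ?_
  rw [dP_apply, ContinuousLinearMap.proj_apply, Finset.sum_eq_single j]
  · rw [pderiv_X_self, map_one, one_mul]
  · intro i _ hi
    rw [pderiv_X_of_ne (Ne.symm hi), map_zero, zero_mul]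
  · intro h
    exact absurd (Finset.mem_univ j) h

theorem hasStrictFDerivAt_eval (p : MvPolynomial σ ℝ) (x : σ → ℝ) :
    HasStrictFDerivAt (fun y : σ → ℝ => eval y p) (dP p x) x := by
  induction p using MvPolynomial.induction_on with
  | C c =>
    rw [PBas_dP_C]
    have : (fun y : σ → ℝ => eval y (C c : MvPolynomial σ ℝ)) = fun _ => c := by
      funext y
      exact eval_C c
    rw [this]
    exact hasStrictFDerivAt_const _ _
  | add p q hp hq =>
    rw [PBas_dP_add]
    simp only [map_add]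
    exact hp.add hq
  | mul_X p j hp =>
    rw [PBas_dP_mul, PBas_dP_X]
    simp only [map_mul, eval_X]
    have h1 : HasStrictFDerivAt (fun y : σ → ℝ => y j)
        (ContinuousLinearMap.proj j : (σ → ℝ) →L[ℝ] ℝ) x :=
      (ContinuousLinearMap.proj j : (σ → ℝ) →L[ℝ] ℝ).hasStrictFDerivAt
    exact hp.mul h1

theorem continuous_eval' (p : MvPolynomial σ ℝ) : Continuous fun y : σ → ℝ => eval y p := by
  exact MvPolynomial.continuous_eval p

theorem hasStrictFDerivAt_sys (g : σ → MvPolynomial σ ℝ) (x : σ → ℝ) :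
    HasStrictFDerivAt (fun (y : σ → ℝ) (i : σ) => eval y (g i)) (jacL g x) x := by
  rw [hasStrictFDerivAt_pi']
  intro i
  exact hasStrictFDerivAt_eval (g i) x

theorem det_jacL [DecidableEq σ] (g : σ → MvPolynomial σ ℝ) (x : σ → ℝ) :
    (jacL g x).det = (jac g x).det := by
  have h : ((jacL g x : (σ → ℝ) →L[ℝ] (σ → ℝ)) : (σ → ℝ) →ₗ[ℝ] (σ → ℝ)) =
      Matrix.toLin' (jac g x) := by
    refine LinearMap.ext fun v => ?_
    funext i
    rw [Matrix.toLin'_apply]
    change dP (g i) x v = _
    rw [dP_apply]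
    rfl
  change LinearMap.det ((jacL g x : (σ → ℝ) →L[ℝ] (σ → ℝ)) : (σ → ℝ) →ₗ[ℝ] (σ → ℝ)) = _
  rw [h, LinearMap.det_toLin']

end Pool.Agent.helper51.OT
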