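import Mathlib
import Pool.Agent.helper51.OT.PBas

/-!
# Project OT, module PCell: a perturbed critical point in every cell

`bigF p R = (R² - ∑ x_i²) ∏_j p_j`.  `S` is a finite set of points in the open ball of radius `R` at
which no `p_j` vanishes.  There is `δ > 0` such that for all `a` with `|a_i| < δ` and all `x ∈ S` there is `z`
with the same sign pattern as `x`, no `p_j` vanishing at `z`, and `∇ bigF (z) = a` or `= -a`.

Proof.  If `S` is empty take `δ = 1`.  Let `η > 0` be the minimum of `|bigF(x)|`, `x ∈ S` (nonzero: all factors are nonzero),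
`n = |σ|` and `δ = η / (2 (n R + 1))`.  Let `|a_i| < δ`, `x ∈ S`.
Let `K = {y | ∑ y_i² ≤ R², ∀ j, 0 ≤ sgn(p_j(x)) p_j(y)}`, compact (closed and bounded: `|y_i| ≤ R`), and contains `x`.
Let `s = ± 1` be the sign of `∏_j p_j(x)`, so `s * bigF(y) ≥ 0` on `K` (`R² - ∑ y_i² ≥ 0` and `s ∏ p_j(y) = |∏ p_j(y)|` on `K`,
as `s = ∏_j sgn(p_j(x))`), and `s * bigF(x) = |bigF(x)| ≥ η`.
`Ψ(y) = s * bigF(y) + ∑ a_i y_i` is continuous and attains its maximum over `K` at some `z`.  On `K` we have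
`|∑ a_i y_i| ≤ n δ R < η / 2`, so `Ψ(z) ≥ Ψ(x) > η - η/2 = η/2`, hence `s * bigF(z) > 0`: so `∑ z_i² < R²`
and all `p_j(z) ≠ 0`, with the sign of `p_j(x)`.  By continuity these strict inequalities hold in a neighbourhood of
`z`, which is therefore contained in `K`; so `z` is a local maximum of `Ψ` (`IsLocalMax`), and
`IsLocalMax.hasFDerivAt_eq_zero` with the differential `s • dP (bigF) z + ∑ a_i proj i` gives
`s * ∂_i bigF (z) + a_i = 0` for all `i` (evaluate at `Pi.single i 1`), i.e. `∂_i bigF(z) = -s a_i`.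
-/

set_option autoImplicit false

namespace Pool.Agent.helper51.OT

open MvPolynomial

variable {σ : Type} [Fintype σ] {J : Type} [Fintype J]

/-- The polynomial `(R² - ∑ x_i²) ∏_j p_j`. -/
noncomputable def bigF (p : J → MvPolynomial σ ℝ) (R : ℝ) : MvPolynomial σ ℝ :=
  (C (R ^ 2) - ∑ i, X i ^ 2) * ∏ j, p j

theorem exists_cell_point [DecidableEq σ] (p : J → MvPolynomial σ ℝ) (R : ℝ) (hR : 0 < R)
    (S : Finset (σ → ℝ)) (hS : ∀ x ∈ S, ∑ i, x i ^ 2 < R ^ 2)
    (hne : ∀ x ∈ S, ∀ j, eval x (p j) ≠ 0) :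
    ∃ δ > 0, ∀ a : σ → ℝ, (∀ i, |a i| < δ) → ∀ x ∈ S, ∃ z : σ → ℝ,
      (∀ j, 0 < eval x (p j) ↔ 0 < eval z (p j)) ∧
      ((∀ i, eval z (pderiv i (bigF p R)) = a i) ∨
        (∀ i, eval z (pderiv i (bigF p R)) = -a i)) := by
  sorry

end Pool.Agent.helper51.OT
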