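import Mathlib
import Pool.Agent.helper51.OT.PBas

/-!
# Project OT, module PLoc: local inverse at a nondegenerate zero

Let `z` be a zero of the system `g` with `det (jac g z) ≠ 0`.  Then `jacL g z` is invertible
(`det_jacL`; a continuous linear map `L` with `L.det ≠ 0` is `ContinuousLinearMap.toContinuousLinearEquivOfDetNeZero`,
with `ContinuousLinearMap.coe_toContinuousLinearEquivOfDetNeZero`), so the inverse function theorem
(`HasStrictFDerivAt.localInverse`, `HasStrictFDerivAt.localInverse_apply_image`,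
`HasStrictFDerivAt.localInverse_continuousAt`, `HasStrictFDerivAt.eventually_right_inverse`)
applies to `y ↦ (g_i(y))_i` at `z`, whose value there is `0`.
-/

set_option autoImplicit false

namespace Pool.Agent.helper51.OT

open MvPolynomial Topology

variable {σ : Type} [Fintype σ] [DecidableEq σ]

theorem local_inverse (g : σ → MvPolynomial σ ℝ) (z : σ → ℝ)
    (hz : ∀ i, eval z (g i) = 0) (hnd : (jac g z).det ≠ 0) :
    ∃ ψ : (σ → ℝ) → (σ → ℝ), ContinuousAt ψ 0 ∧ ψ 0 = z ∧
      ∀ᶠ y in 𝓝 (0 : σ → ℝ), ∀ i, eval (ψ y) (g i) = y i := by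
  have hdet : (jacL g z).det ≠ 0 := by
    rw [det_jacL]
    exact hnd
  have h0 : (fun i : σ => eval z (g i)) = 0 := funext hz
  have hf : HasStrictFDerivAt (fun (y : σ → ℝ) (i : σ) => eval y (g i))
      (((jacL g z).toContinuousLinearEquivOfDetNeZero hdet : (σ → ℝ) ≃L[ℝ] (σ → ℝ)) :
        (σ → ℝ) →L[ℝ] (σ → ℝ)) z := by
    rw [ContinuousLinearMap.coe_toContinuousLinearEquivOfDetNeZero]
    exact hasStrictFDerivAt_sys g z
  refine ⟨hf.localInverse (fun (y : σ → ℝ) (i : σ) => eval y (g i)) _ z, ?_, ?_, ?_⟩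
  · have h1 := hf.localInverse_continuousAt
    rw [h0] at h1
    exact h1
  · have h1 := hf.localInverse_apply_image
    rw [h0] at h1
    exact h1
  · have h1 := hf.eventually_right_inverse
    rw [h0] at h1
    filter_upwards [h1] with y hy i
    exact congrFun hy i

end Pool.Agent.helper51.OT
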