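import Mathlib
import Pool.Agent.helper51.OT.Defs

/-!
# Project OT, module PLow: the lowest order terms vanish

Situation: `∑_b Q_b(x) ∏_i G_i(x)^{β_b(i)} = 0` for all `x`, where the exponent vectors
`β_b : σ → ℕ` are pairwise different (`b` in a finite type `B`), and `Q_b = 0` (identically) whenever
`|β_b| := ∑_i β_b(i) < r`.  `ψ` is a local right inverse of `G` near `0`, continuous at `0`,
`ψ 0 = z`, and the `Q_b` are continuous at `z`.  Then `Q_b(z) = 0` for all `b` with `|β_b| = r`.

Proof.  Fix `s : σ → ℝ`.  For `t > 0` small put `x = ψ(t s)`; `G(x) = t s`, so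
`0 = ∑_b Q_b(ψ(ts)) ∏_i (t s_i)^{β_b(i)} = ∑_{|β_b| ≥ r} Q_b(ψ(ts)) t^{|β_b|} ∏_i s_i^{β_b(i)}`.  Dividing by
`t^r`:  `T(t) := ∑_b (if |β_b| < r then 0 else Q_b(ψ(ts)) t^{|β_b| - r} ∏_i s_i^{β_b(i)}) = 0` for all
small `t > 0`.  `T` is continuous at `0` (finite sum of products; `Q_b ∘ ψ ∘ (t ↦ t s)` is continuous at
`0` because `ψ 0 = z`), so `T(0) = 0` (limit along `𝓝[>] 0`, uniqueness of limits).  `T(0)` is
`∑_{|β_b| = r} Q_b(z) ∏_i s_i^{β_b(i)}` (as `0^{k} = 0` for `k > 0`).  So the polynomial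
`∑_{|β_b| = r} Q_b(z) X^{β_b}` vanishes at every `s`, hence is zero (`MvPolynomial.funext`), and its
coefficient at `β_b` is `Q_b(z)` since the `β_b` are pairwise different (use
`MvPolynomial.monomial (Finsupp.equivFunOnFinite.symm (β b)) (Q b z)` and `coeff_monomial`).
-/

set_option autoImplicit false

namespace Pool.Agent.helper51.OT

open Topology

variable {σ : Type} [Fintype σ]

theorem lowest_order {B : Type} [Fintype B] (β : B → σ → ℕ) (hβ : Function.Injective β)
    (G : (σ → ℝ) → (σ → ℝ)) (Q : B → (σ → ℝ) → ℝ) (z : σ → ℝ) (ψ : (σ → ℝ) → (σ → ℝ))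
    (hψ : ContinuousAt ψ 0) (hψ0 : ψ 0 = z) (hG : ∀ᶠ y in 𝓝 (0 : σ → ℝ), G (ψ y) = y)
    (hQ : ∀ b, ContinuousAt (Q b) z)
    (hsum : ∀ x, ∑ b, Q b x * ∏ i, G x i ^ β b i = 0) (r : ℕ)
    (hlow : ∀ b, ∑ i, β b i < r → ∀ x, Q b x = 0) :
    ∀ b, ∑ i, β b i = r → Q b z = 0 := by
  classical
  -- the value at zero
  have key : ∀ s : σ → ℝ,
      ∑ b, (if ∑ i, β b i = r then Q b z * ∏ i, s i ^ β b i else 0) = 0 := by
    intro s
    let T : ℝ → ℝ := fun t => ∑ b, (if ∑ i, β b i < r then 0 else
      Q b (ψ (t • s)) * (t ^ (∑ i, β b i - r) * ∏ i, s i ^ β b i))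
    have hts : ContinuousAt (fun t : ℝ => t • s) 0 :=
      (continuous_id.smul continuous_const).continuousAt
    have h0s : (0 : ℝ) • s = 0 := zero_smul ℝ s
    have hψs : ContinuousAt (fun t : ℝ => ψ (t • s)) 0 := by
      have h1 : ContinuousAt ψ ((0 : ℝ) • s) := by rw [h0s]; exact hψ
      exact ContinuousAt.comp (f := fun t : ℝ => t • s) (g := ψ) h1 hts
    have hQs : ∀ b, ContinuousAt (fun t : ℝ => Q b (ψ (t • s))) 0 := by
      intro b
      have h1 : ContinuousAt (Q b) (ψ ((0 : ℝ) • s)) := by rw [h0s, hψ0]; exact hQ b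
      exact ContinuousAt.comp (f := fun t : ℝ => ψ (t • s)) (g := Q b) h1 hψs
    have hTc : ContinuousAt T 0 := by
      refine tendsto_finsetSum _ fun b _ => ?_
      by_cases hb : ∑ i, β b i < r
      · simp only [if_pos hb]
        exact tendsto_const_nhds
      · simp only [if_neg hb]
        exact (hQs b).mul (((continuous_pow _).continuousAt).mul continuousAt_const)
    have hT0 : ∀ᶠ t in 𝓝[>] (0 : ℝ), T t = 0 := by
      have h1 : ∀ᶠ t in 𝓝 (0 : ℝ), G (ψ (t • s)) = t • s := by
        have h2 : Filter.Tendsto (fun t : ℝ => t • s) (𝓝 0) (𝓝 0) := by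
          have h3 := hts.tendsto
          simp only [h0s] at h3
          exact h3
        exact h2.eventually hG
      filter_upwards [mem_nhdsWithin_of_mem_nhds h1, self_mem_nhdsWithin] with t ht ht0
      have htpos : (0 : ℝ) < t := ht0
      have h4 : t ^ r * T t = 0 := by
        rw [← hsum (ψ (t • s)), Finset.mul_sum]
        refine Finset.sum_congr rfl fun b _ => ?_
        by_cases hb : ∑ i, β b i < r
        · rw [if_pos hb, hlow b hb, mul_zero, zero_mul]
        · rw [if_neg hb]
          have h5 : ∏ i, G (ψ (t • s)) i ^ β b i = t ^ (∑ i, β b i) * ∏ i, s i ^ β b i := by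
            have h6 : G (ψ (t • s)) = t • s := ht
            rw [h6, ← Finset.prod_pow_eq_pow_sum, ← Finset.prod_mul_distrib]
            refine Finset.prod_congr rfl fun i _ => ?_
            rw [Pi.smul_apply, smul_eq_mul, mul_pow]
          have h7 : t ^ (∑ i, β b i) = t ^ r * t ^ (∑ i, β b i - r) := by
            rw [← pow_add]
            congr 1
            omega
          rw [h5, h7]
          ring
      exact (mul_eq_zero.1 h4).resolve_left (pow_ne_zero _ htpos.ne')
    have hTz : T 0 = 0 := by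
      have h1 : Filter.Tendsto T (𝓝[>] (0 : ℝ)) (𝓝 (T 0)) := hTc.tendsto.mono_left nhdsWithin_le_nhds
      have h2 : Filter.Tendsto T (𝓝[>] (0 : ℝ)) (𝓝 0) :=
        (Filter.tendsto_congr' hT0).2 tendsto_const_nhds
      exact tendsto_nhds_unique h1 h2
    refine Eq.trans ?_ hTz
    refine Finset.sum_congr rfl fun b _ => ?_
    rcases lt_trichotomy (∑ i, β b i) r with hb | hb | hb
    · rw [if_neg hb.ne, if_pos hb]
    · rw [if_pos hb, if_neg (by omega), h0s, hψ0, hb, Nat.sub_self, pow_zero, one_mul]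
    · rw [if_neg hb.ne', if_neg (by omega), zero_pow (by omega), zero_mul, mul_zero]
  -- the polynomial
  let P : MvPolynomial σ ℝ := ∑ b, (if ∑ i, β b i = r then
    MvPolynomial.monomial (Finsupp.equivFunOnFinite.symm (β b)) (Q b z) else 0)
  have hP : P = 0 := by
    apply MvPolynomial.funext
    intro s
    rw [map_zero, map_sum, ← key s]
    refine Finset.sum_congr rfl fun b _ => ?_
    by_cases hb : ∑ i, β b i = r
    · rw [if_pos hb, if_pos hb, MvPolynomial.eval_monomial, Finsupp.prod_fintype]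
      · rfl
      · intro i
        exact pow_zero _
    · rw [if_neg hb, if_neg hb, map_zero]
  intro b hb
  have h1 : MvPolynomial.coeff (Finsupp.equivFunOnFinite.symm (β b)) P = 0 := by
    rw [hP, MvPolynomial.coeff_zero]
  have h2 : MvPolynomial.coeff (Finsupp.equivFunOnFinite.symm (β b)) P = Q b z := by
    rw [MvPolynomial.coeff_sum, Finset.sum_eq_single b]
    · rw [if_pos hb, MvPolynomial.coeff_monomial, if_pos rfl]
    · intro b' _ hne
      by_cases hb' : ∑ i, β b' i = r
      · rw [if_pos hb', MvPolynomial.coeff_monomial, if_neg]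
        intro he
        exact hne (hβ (Finsupp.equivFunOnFinite.symm.injective he))
      · rw [if_neg hb', MvPolynomial.coeff_zero]
    · intro h3
      exact absurd (Finset.mem_univ b) h3
  rw [← h2, h1]

end Pool.Agent.helper51.OT
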