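import Mathlib
import Pool.Agent.helper51.OT.PLoc
import Pool.Agent.helper51.OT.PLow

/-!
# Project OT, module PInd: linear independence of `u^j g^β`

`Z` is a finite set of nondegenerate zeros of the system `g`, `u` takes pairwise different values on
`Z`, `N = |Z|`.  The polynomials `u^j ∏_i g_i^{β_i}` (`0 ≤ j < N`, `β : σ → Fin (L+1)`) are linearly
independent over `ℝ`.

Proof.  Let `∑_{j,β} c_{jβ} u^j g^β = 0` (`Fintype.linearIndependent_iff`).  Put `Q_β(x) = ∑_j c_{jβ} u(x)^j`, a
continuous function (`continuous_eval'`).  By strong induction on `r` we show: `c_{jβ} = 0` for all `j`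
and all `β` with `∑_i β_i = r`.  If this holds for all smaller values then `Q_β = 0` identically for
`|β| < r`.  For each `z ∈ Z` take `ψ` from `local_inverse` (PLoc) and apply `lowest_order` (PLow) with
`B = (σ → Fin (L+1))`, `β b i = (b i : ℕ)` (injective), `G x i = eval x (g i)`: the hypothesis `hsum` is the evaluation
of the relation at `x`.  So `Q_β(z) = 0` for all `z ∈ Z`, `|β| = r`.  The one-variable polynomial
`∑_{j<N} c_{jβ} Y^j` has degree `< N` and vanishes at the `N` different numbers `u(z)`, `z ∈ Z`; so it is zero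
(`Polynomial.eq_zero_of_natDegree_lt_card_of_eval_eq_zero'` or `Polynomial.card_roots'`, or
Vandermonde), that is `c_{jβ} = 0` for all `j`.
-/

set_option autoImplicit false

namespace Pool.Agent.helper51.OT

open MvPolynomial

variable {σ : Type} [Fintype σ]

/-- The family `u^j ∏_i g_i^{β_i}`. -/
noncomputable def fam (u : MvPolynomial σ ℝ) (g : σ → MvPolynomial σ ℝ) (N L : ℕ)
    (jb : Fin N × (σ → Fin (L + 1))) : MvPolynomial σ ℝ :=
  u ^ (jb.1 : ℕ) * ∏ i, g i ^ (jb.2 i : ℕ)

theorem fam_indep [DecidableEq σ] (g : σ → MvPolynomial σ ℝ) (Z : Finset (σ → ℝ))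
    (hz : ∀ z ∈ Z, ∀ i, eval z (g i) = 0) (hnd : ∀ z ∈ Z, (jac g z).det ≠ 0)
    (u : MvPolynomial σ ℝ) (hu : ∀ z ∈ Z, ∀ z' ∈ Z, eval z u = eval z' u → z = z') (L : ℕ) :
    LinearIndependent ℝ (fam u g Z.card L) := by
  classical
  rw [Fintype.linearIndependent_iff]
  intro c hc
  set Q : (σ → Fin (L + 1)) → (σ → ℝ) → ℝ :=
    fun b x => ∑ j : Fin Z.card, c (j, b) * (eval x u) ^ (j : ℕ) with hQ
  have hQc : ∀ b, Continuous (Q b) := by
    intro b
    apply continuous_finsetSum
    intro j _
    exact continuous_const.mul ((continuous_eval' u).pow _)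
  have hsum : ∀ x : σ → ℝ, ∑ b, Q b x * ∏ i, (eval x (g i)) ^ ((b i : ℕ)) = 0 := by
    intro x
    have h1 := congrArg (eval x) hc
    rw [map_sum, map_zero] at h1
    rw [← h1, Fintype.sum_prod_type_right]
    refine Finset.sum_congr rfl fun b _ => ?_
    rw [hQ]
    dsimp only
    rw [Finset.sum_mul]
    refine Finset.sum_congr rfl fun j _ => ?_
    rw [smul_eval, fam, map_mul, map_pow, map_prod]
    simp only [map_pow]
    ring
  have hpoly : ∀ b, (∀ z ∈ Z, Q b z = 0) → ∀ j, c (j, b) = 0 := by
    intro b hb j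
    set p : Polynomial ℝ :=
      ∑ i : Fin Z.card, Polynomial.C (c (i, b)) * Polynomial.X ^ (i : ℕ) with hp
    have hdeg : p.degree < (Z.image fun z => eval z u).card := by
      have h1 : (Z.image fun z => eval z u).card = Z.card :=
        Finset.card_image_of_injOn fun z hz z' hz' h => hu z hz z' hz' h
      rw [h1]
      exact Polynomial.degree_sum_fin_lt _
    have hp0 : p = 0 := by
      refine Polynomial.eq_zero_of_degree_lt_of_eval_finset_eq_zero _ hdeg ?_
      intro y hy
      obtain ⟨z, hz, rfl⟩ := Finset.mem_image.mp hy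
      have h2 := hb z hz
      rw [hQ] at h2
      dsimp only at h2
      rw [hp, Polynomial.eval_finsetSum, ← h2]
      refine Finset.sum_congr rfl fun i _ => ?_
      simp
    have h3 := congrArg (fun q => Polynomial.coeff q (j : ℕ)) hp0
    simp only [hp, Polynomial.finsetSum_coeff, Polynomial.coeff_C_mul, Polynomial.coeff_X_pow,
      Polynomial.coeff_zero] at h3
    rw [Finset.sum_eq_single j] at h3
    · simpa using h3
    · intro i _ hij
      rw [if_neg, mul_zero]
      intro h
      exact hij (Fin.ext h.symm)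
    · intro h
      exact absurd (Finset.mem_univ j) h
  have key : ∀ r : ℕ, ∀ b : σ → Fin (L + 1), ∑ i, ((b i : ℕ)) = r → ∀ j, c (j, b) = 0 := by
    intro r
    induction r using Nat.strong_induction_on with
    | _ r ih =>
      intro b hb
      apply hpoly b
      intro z hzZ
      obtain ⟨ψ, hψ, hψ0, hψg⟩ := local_inverse g z (hz z hzZ) (hnd z hzZ)
      refine lowest_order (B := σ → Fin (L + 1)) (fun b i => ((b i : ℕ))) ?_
        (fun x i => eval x (g i)) Q z ψ hψ hψ0 ?_ (fun b => (hQc b).continuousAt) hsum r ?_ b hb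
      · intro b b' hbb
        funext i
        exact Fin.ext (congrFun hbb i)
      · exact hψg.mono fun y hy => funext hy
      · intro b' hb' x
        rw [hQ]
        dsimp only
        refine Finset.sum_eq_zero fun j _ => ?_
        rw [ih _ hb' b' rfl j, zero_mul]
  rintro ⟨j, b⟩
  exact key _ b rfl j

end Pool.Agent.helper51.OT
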