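import Mathlib
import Pool.Agent.helper51.OT.PInd

/-!
# Project OT, module PDim: dimension count, degrees, separating form

* `card_le_of_restrict`: a linearly independent family in `restrictDegree σ ℝ K` (polynomials with all
  exponents `≤ K`) has at most `(K+1)^{|σ|}` members.  Proof: `restrictDegree σ ℝ K` is
  `restrictSupport ℝ {m | ∀ i, m i ≤ K}` with basis `MvPolynomial.basisRestrictSupport`, indexed by the set
  of `m : σ →₀ ℕ` with `m i ≤ K`, which is in bijection with `σ → Fin (K+1)`.  Or: the linear map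
  `MvPolynomial → ((σ → Fin (K+1)) → ℝ)`, `p ↦ (coeff m p)_m`, is injective on `restrictDegree`; so the image family
  is linearly independent in a space of dimension `(K+1)^{|σ|}`
  (`LinearIndependent.fintype_card_le_finrank`).
* `fam_mem`: `p.degreeOf i ≤ p.totalDegree`; every monomial `m` of `u^j ∏ g_i^{β_i}` has total degree
  at most `j * 1 + ∑_i β_i D ≤ (N-1) + |σ| L D` (`totalDegree_mul`, `totalDegree_pow`, `totalDegree_finset_prod`),
  and `m i ≤` total degree.  (`mem_restrictDegree`, `le_totalDegree`.)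
* `exists_sep`: there is a linear form which separates a finite set `Z ⊆ ℝ^σ`.  Proof: the finitely many
  differences `z - z'` (`z ≠ z' ∈ Z`) are nonzero vectors, so some linear functional is nonzero on all of
  them (`Module.exists_dual_forall_apply_ne_zero` in `Mathlib/Algebra/Module/Submodule/Union.lean`, index type the
  subtype of pairs); a functional `φ` on `σ → ℝ` is `∑ i, φ(e_i) x_i`, so take `u = ∑ i, C (φ (Pi.single i 1)) * X i`,
  of total degree `≤ 1`.
-/

set_option autoImplicit false

namespace Pool.Agent.helper51.OT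

open MvPolynomial

variable {σ : Type} [Fintype σ]

/-- The coefficients with exponents at most `K`. -/
noncomputable def PDim_T (σ : Type) [Fintype σ] (K : ℕ) :
    MvPolynomial σ ℝ →ₗ[ℝ] ((σ → Fin (K + 1)) → ℝ) where
  toFun p m := coeff (Finsupp.equivFunOnFinite.symm (fun i => (m i : ℕ))) p
  map_add' p q := by
    funext m
    simp only [coeff_add, Pi.add_apply]
  map_smul' c p := by
    funext m
    simp only [coeff_smul, Pi.smul_apply, RingHom.id_apply]

theorem PDim_inj {K : ℕ} {p : MvPolynomial σ ℝ} (hp : p ∈ restrictDegree σ ℝ K)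
    (h0 : PDim_T σ K p = 0) : p = 0 := by
  ext s
  rw [coeff_zero]
  by_contra hne
  rw [mem_restrictDegree] at hp
  have hs : s ∈ p.support := mem_support_iff.mpr hne
  have h1 := hp s hs
  have h2 : PDim_T σ K p (fun i => ⟨s i, Nat.lt_succ_of_le (h1 i)⟩) = 0 := by
    rw [h0]
    rfl
  apply hne
  have h3 : (Finsupp.equivFunOnFinite.symm (fun i => s i) : σ →₀ ℕ) = s := by
    ext i
    simp
  have h4 : coeff (Finsupp.equivFunOnFinite.symm (fun i => s i)) p = 0 := h2
  rw [h3] at h4
  exact h4

theorem card_le_of_restrict {ι : Type} [Fintype ι] (F : ι → MvPolynomial σ ℝ)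
    (hF : LinearIndependent ℝ F) (K : ℕ) (hK : ∀ i, F i ∈ restrictDegree σ ℝ K) :
    Fintype.card ι ≤ (K + 1) ^ Fintype.card σ := by
  classical
  have h1 : LinearIndependent ℝ (PDim_T σ K ∘ F) := by
    apply hF.map
    rw [Submodule.disjoint_def]
    intro p hp hp0
    refine PDim_inj ?_ (LinearMap.mem_ker.mp hp0)
    have h2 : Submodule.span ℝ (Set.range F) ≤ restrictDegree σ ℝ K := by
      rw [Submodule.span_le]
      rintro _ ⟨i, rfl⟩
      exact hK i
    exact h2 hp
  have h2 := h1.fintype_card_le_finrank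
  rw [Module.finrank_fintype_fun_eq_card, Fintype.card_fun, Fintype.card_fin] at h2
  exact h2

theorem fam_mem (u : MvPolynomial σ ℝ) (g : σ → MvPolynomial σ ℝ) (N L D : ℕ)
    (hu : u.totalDegree ≤ 1) (hg : ∀ i, (g i).totalDegree ≤ D) (jb : Fin N × (σ → Fin (L + 1))) :
    fam u g N L jb ∈ restrictDegree σ ℝ (Fintype.card σ * D * L + (N - 1)) := by
  classical
  have h1 : (fam u g N L jb).totalDegree ≤ Fintype.card σ * D * L + (N - 1) := by
    have h2 : (u ^ (jb.1 : ℕ)).totalDegree ≤ N - 1 := by
      have h3 := totalDegree_pow u (jb.1 : ℕ)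
      have h4 : (jb.1 : ℕ) * u.totalDegree ≤ (jb.1 : ℕ) * 1 := Nat.mul_le_mul_left _ hu
      have h5 := jb.1.2
      omega
    have h3 : (∏ i, g i ^ (jb.2 i : ℕ)).totalDegree ≤ Fintype.card σ * D * L := by
      refine le_trans (totalDegree_finset_prod _ _) ?_
      have h4 : ∀ i ∈ (Finset.univ : Finset σ), (g i ^ (jb.2 i : ℕ)).totalDegree ≤ L * D := by
        intro i _
        refine le_trans (totalDegree_pow _ _) ?_
        exact Nat.mul_le_mul (Nat.lt_succ_iff.mp (jb.2 i).2) (hg i)
      refine le_trans (Finset.sum_le_sum h4) ?_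
      rw [Finset.sum_const, smul_eq_mul, Finset.card_univ]
      apply le_of_eq
      ring
    refine le_trans (totalDegree_mul _ _) ?_
    rw [add_comm]
    exact Nat.add_le_add h3 h2
  rw [mem_restrictDegree]
  intro s hs i
  exact le_trans (monomial_le_degreeOf i hs) (le_trans (degreeOf_le_totalDegree _ i) h1)

theorem exists_sep (Z : Finset (σ → ℝ)) :
    ∃ u : MvPolynomial σ ℝ, u.totalDegree ≤ 1 ∧
      ∀ z ∈ Z, ∀ z' ∈ Z, eval z u = eval z' u → z = z' := by
  classical
  let P : Finset ((σ → ℝ) × (σ → ℝ)) := (Z ×ˢ Z).filter fun p => p.1 ≠ p.2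
  obtain ⟨f, hf⟩ := Module.exists_dual_forall_apply_ne_zero (K := ℝ) (M := σ → ℝ)
    (fun p : P => p.1.1 - p.1.2) (fun p => by
      have h1 := (Finset.mem_filter.mp p.2).2
      exact sub_ne_zero.mpr h1)
  have he : ∀ z : σ → ℝ, eval z (∑ i, C (f (fun j => if i = j then (1 : ℝ) else 0)) * X i) = f z := by
    intro z
    rw [map_sum, LinearMap.pi_apply_eq_sum_univ f z]
    refine Finset.sum_congr rfl (fun i _ => ?_)
    rw [eval_mul, eval_C, eval_X, smul_eq_mul, mul_comm]
  refine ⟨∑ i, C (f (fun j => if i = j then (1 : ℝ) else 0)) * X i, ?_, ?_⟩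
  · refine totalDegree_finsetSum_le (fun i _ => ?_)
    refine le_trans (totalDegree_mul _ _) ?_
    rw [totalDegree_C, zero_add, totalDegree_X]
  · intro z hz z' hz' hzz
    by_contra hne
    rw [he, he] at hzz
    have h1 := hf ⟨(z, z'), Finset.mem_filter.mpr ⟨Finset.mem_product.mpr ⟨hz, hz'⟩, hne⟩⟩
    apply h1
    show f (z - z') = 0
    rw [map_sub, hzz, sub_self]

end Pool.Agent.helper51.OT
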