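import Mathlib
import Pool.Agent.helper51.OT.PDim

/-!
# Project OT, module PND: at most `(nD+1)^n` nondegenerate zeros

Let `n = |σ|`, `N = |Z|`.  If `N = 0` nothing is to be shown.  Take `u` from `exists_sep`, `L = N`.  By `fam_indep`,
`fam_mem`, `card_le_of_restrict` (PInd, PDim):
`N (N+1)^n = card (Fin N × (σ → Fin (N+1))) ≤ (n D N + (N-1) + 1)^n = (N (n D + 1))^n = N^n (nD+1)^n
≤ (N+1)^n (nD+1)^n`.  Cancel `(N+1)^n > 0`.
-/

set_option autoImplicit false

namespace Pool.Agent.helper51.OT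

open MvPolynomial

variable {σ : Type} [Fintype σ] [DecidableEq σ]

theorem card_zeros_le (g : σ → MvPolynomial σ ℝ) (D : ℕ) (hg : ∀ i, (g i).totalDegree ≤ D)
    (Z : Finset (σ → ℝ)) (hz : ∀ z ∈ Z, ∀ i, eval z (g i) = 0)
    (hnd : ∀ z ∈ Z, (jac g z).det ≠ 0) :
    Z.card ≤ (Fintype.card σ * D + 1) ^ Fintype.card σ := by
  rcases Nat.eq_zero_or_pos Z.card with h0 | hpos
  · rw [h0]; exact Nat.zero_le _
  obtain ⟨u, hu1, hu⟩ := exists_sep Z
  have hind := fam_indep g Z hz hnd u hu Z.card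
  have hcard := card_le_of_restrict (fam u g Z.card Z.card) hind
    (Fintype.card σ * D * Z.card + (Z.card - 1))
    (fun jb => fam_mem u g Z.card Z.card D hu1 hg jb)
  have h1 : Fintype.card (Fin Z.card × (σ → Fin (Z.card + 1))) =
      Z.card * (Z.card + 1) ^ Fintype.card σ := by
    simp
  have h2 : Fintype.card σ * D * Z.card + (Z.card - 1) + 1 =
      Z.card * (Fintype.card σ * D + 1) := by
    have h3 : Z.card * (Fintype.card σ * D + 1) = Fintype.card σ * D * Z.card + Z.card := by ring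
    omega
  rw [h1, h2] at hcard
  have h4 : (Z.card * (Fintype.card σ * D + 1)) ^ Fintype.card σ ≤
      (Fintype.card σ * D + 1) ^ Fintype.card σ * (Z.card + 1) ^ Fintype.card σ := by
    rw [mul_pow, mul_comm]
    exact Nat.mul_le_mul_left _ (Nat.pow_le_pow_left (Nat.le_succ _) _)
  exact Nat.le_of_mul_le_mul_right (hcard.trans h4) (pow_pos (Nat.succ_pos _) _)

end Pool.Agent.helper51.OT
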