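import Mathlib
import Pool.Agent.helper51.OT.PBas

/-!
# Project OT, module PSard: small regular values of a gradient

Let `g(x) = (∂_i F (x))_i`, a map `(σ → ℝ) → (σ → ℝ)` with differential `jacL (fun i => pderiv i F) x`
(`hasStrictFDerivAt_sys`), `C = {x | (jacL ...).det = 0}`.  By Sard's theorem in Mathlib,
`MeasureTheory.addHaar_image_eq_zero_of_det_fderiv_eq_zero` (with `HasStrictFDerivAt.hasFDerivAt.hasFDerivWithinAt`), the set
`g '' C` has volume zero; so has `{a | -a ∈ g '' C}` (negation preserves the volume: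
`MeasureTheory.Measure.measure_neg`/`Measure.IsNegInvariant`, or apply the same theorem to `-g`, whose determinant is
`± det`).  The union of both sets has volume zero; the open set `{a | ∀ i, |a i| < δ}` (it contains `0`) has
positive volume (`IsOpen.measure_pos`), so it contains a point `a` outside of the union.  For `z` with
`g(z) = a`: `z ∉ C`, that is `det ≠ 0` (`det_jacL`); for `g(z) = -a` the same.
-/

set_option autoImplicit false

namespace Pool.Agent.helper51.OT

open MvPolynomial

variable {σ : Type} [Fintype σ] [DecidableEq σ]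

theorem exists_regular (F : MvPolynomial σ ℝ) (δ : ℝ) (hδ : 0 < δ) :
    ∃ a : σ → ℝ, (∀ i, |a i| < δ) ∧ ∀ z : σ → ℝ,
      ((∀ i, eval z (pderiv i F) = a i) ∨ (∀ i, eval z (pderiv i F) = -a i)) →
        (jac (fun i => pderiv i F) z).det ≠ 0 := by
  let g : (σ → ℝ) → (σ → ℝ) := fun y i => eval y (pderiv i F)
  let C : Set (σ → ℝ) := {x | (jacL (fun i => pderiv i F) x).det = 0}
  have h1 : MeasureTheory.volume (g '' C) = 0 :=
    MeasureTheory.addHaar_image_eq_zero_of_det_fderivWithin_eq_zero MeasureTheory.volume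
      (f' := fun x => jacL (fun i => pderiv i F) x)
      (fun x _ => (hasStrictFDerivAt_sys (fun i => pderiv i F) x).hasFDerivAt.hasFDerivWithinAt)
      (fun x hx => hx)
  have h2 : MeasureTheory.volume (-(g '' C)) = 0 := by
    rw [MeasureTheory.Measure.measure_neg]
    exact h1
  have hopen : IsOpen {a : σ → ℝ | ∀ i, |a i| < δ} := by
    have e : {a : σ → ℝ | ∀ i, |a i| < δ} = ⋂ i, {a : σ → ℝ | |a i| < δ} := by
      ext a
      simp
    rw [e]
    exact isOpen_iInter_of_finite fun i =>
      isOpen_lt ((continuous_apply i).abs) continuous_const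
  have hne : {a : σ → ℝ | ∀ i, |a i| < δ}.Nonempty := ⟨0, fun i => by simpa using hδ⟩
  have hpos := hopen.measure_pos MeasureTheory.volume hne
  have hex : ∃ a ∈ {a : σ → ℝ | ∀ i, |a i| < δ}, a ∉ g '' C ∪ -(g '' C) := by
    by_contra hcon
    push Not at hcon
    have h3 : MeasureTheory.volume {a : σ → ℝ | ∀ i, |a i| < δ} ≤ 0 := by
      calc MeasureTheory.volume {a : σ → ℝ | ∀ i, |a i| < δ}
          ≤ MeasureTheory.volume (g '' C ∪ -(g '' C)) := MeasureTheory.measure_mono hcon
        _ ≤ MeasureTheory.volume (g '' C) + MeasureTheory.volume (-(g '' C)) :=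
          MeasureTheory.measure_union_le _ _
        _ = 0 := by rw [h1, h2, add_zero]
    exact absurd hpos (not_lt.2 h3)
  obtain ⟨a, ha, haN⟩ := hex
  refine ⟨a, ha, ?_⟩
  intro z hz hdet
  have hzC : z ∈ C := by
    show (jacL (fun i => pderiv i F) z).det = 0
    rw [det_jacL]
    exact hdet
  apply haN
  rcases hz with hz | hz
  · left
    exact ⟨z, hzC, funext hz⟩
  · right
    rw [Set.mem_neg]
    exact ⟨z, hzC, funext fun i => by rw [Pi.neg_apply]; exact hz i⟩

end Pool.Agent.helper51.OT
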