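import Mathlib
import Pool.Agent.helper51.OT.PND
import Pool.Agent.helper51.OT.PSard
import Pool.Agent.helper51.OT.PCell

/-!
# Project OT, module PWar: the Warren type bound

* `totalDegree_pderiv_le`: `(pderiv i F).totalDegree ≤ F.totalDegree` (a monomial of `pderiv i F` is `m - e_i` for a monomial
  `m` of `F` (`MvPolynomial.coeff_pderiv`: the coefficient of `pderiv i F` at `m` is `(m i + 1)` times the coefficient of `F` at
  `m + e_i`), so its degree is at most the degree of `m + e_i ≤ totalDegree F`).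
* `totalDegree_bigF`: `≤ card J * d + 2` (`totalDegree_mul`, `totalDegree_finset_prod`, `totalDegree_sub`,
  `totalDegree_finset_sum`, `totalDegree_X_pow`).
* `warren`: choose `R > 0` with `∑ x_i² < R²` for all `x ∈ S` (finite set), `δ` from `exists_cell_point`, `a` from
  `exists_regular (bigF p R) δ`.  Choose for `x ∈ S` the point `z_x`; it has the sign pattern of `x` so `x ↦ z_x` is
  injective on `S` (`hinj`).  Let `S₊ = {x ∈ S | ∀ i, ∂_i bigF(z_x) = a_i}` and `S₋` the rest of `S`, where
  `∂_i bigF(z_x) = -a_i`.  `card S₊ = card of the image of S₊ under z` is at most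
  `(n (card J * d + 2) + 1)^n` by `card_zeros_le` (PND) for the system `g i = pderiv i (bigF p R) - C (a i)` with
  `D = card J * d + 2`: the degree is `≤ D`, and `jac g = jac (fun i => pderiv i (bigF p R))` since `pderiv j (C _) = 0`;
  nondegenerate by the choice of `a`.  The same for `S₋` with `-a`.
-/

set_option autoImplicit false

namespace Pool.Agent.helper51.OT

open MvPolynomial

variable {σ : Type} [Fintype σ] {J : Type} [Fintype J]

theorem totalDegree_pderiv_le (F : MvPolynomial σ ℝ) (i : σ) :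
    (pderiv i F).totalDegree ≤ F.totalDegree := by
  classical
  unfold totalDegree
  apply Finset.sup_le
  intro b hb
  rw [mem_support_iff, coeff_pderiv] at hb
  have h1 : coeff (b + Finsupp.single i 1) F ≠ 0 := left_ne_zero_of_mul hb
  have h2 := le_totalDegree (mem_support_iff.2 h1)
  have h3 : ((b + Finsupp.single i 1).sum fun _ e => e) =
      (b.sum fun _ e => e) + ((Finsupp.single i 1).sum fun _ e => e) :=
    Finsupp.sum_add_index' (fun _ => rfl) (fun _ _ _ => rfl)
  rw [h3] at h2
  exact le_trans (Nat.le_add_right _ _) h2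

theorem totalDegree_bigF (p : J → MvPolynomial σ ℝ) (R : ℝ) (d : ℕ)
    (hd : ∀ j, (p j).totalDegree ≤ d) :
    (bigF p R).totalDegree ≤ Fintype.card J * d + 2 := by
  unfold bigF
  refine (totalDegree_mul _ _).trans ?_
  have h1 : (C (R ^ 2) - ∑ i, X i ^ 2 : MvPolynomial σ ℝ).totalDegree ≤ 2 := by
    refine (totalDegree_sub _ _).trans (max_le ?_ ?_)
    · rw [totalDegree_C]
      exact Nat.zero_le _
    · refine (totalDegree_finsetSum _ _).trans (Finset.sup_le fun i _ => ?_)
      rw [totalDegree_X_pow]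
  have h2 : (∏ j, p j).totalDegree ≤ Fintype.card J * d := by
    refine (totalDegree_finsetProd _ _).trans ?_
    refine (Finset.sum_le_card_nsmul _ _ d fun j _ => hd j).trans ?_
    rw [Finset.card_univ, smul_eq_mul]
  omega

theorem warren [DecidableEq σ] (p : J → MvPolynomial σ ℝ) (d : ℕ)
    (hd : ∀ j, (p j).totalDegree ≤ d)
    (S : Finset (σ → ℝ)) (hne : ∀ x ∈ S, ∀ j, eval x (p j) ≠ 0)
    (hinj : ∀ x ∈ S, ∀ y ∈ S, (∀ j, 0 < eval x (p j) ↔ 0 < eval y (p j)) → x = y) :
    S.card ≤ 2 * (Fintype.card σ * (Fintype.card J * d + 2) + 1) ^ Fintype.card σ := by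
  classical
  obtain ⟨R, hR, hRS⟩ : ∃ R : ℝ, 0 < R ∧ ∀ x ∈ S, ∑ i, x i ^ 2 < R ^ 2 := by
    refine ⟨(∑ x ∈ S, ∑ i, x i ^ 2) + 1, ?_, ?_⟩
    · have : 0 ≤ ∑ x ∈ S, ∑ i, x i ^ 2 :=
        Finset.sum_nonneg fun x _ => Finset.sum_nonneg fun i _ => sq_nonneg _
      linarith
    · intro x hx
      have h0 : 0 ≤ ∑ x ∈ S, ∑ i, x i ^ 2 :=
        Finset.sum_nonneg fun x _ => Finset.sum_nonneg fun i _ => sq_nonneg _
      have h1 : ∑ i, x i ^ 2 ≤ ∑ x ∈ S, ∑ i, x i ^ 2 :=
        Finset.single_le_sum (f := fun x : σ → ℝ => ∑ i, x i ^ 2)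
          (fun x _ => Finset.sum_nonneg fun i _ => sq_nonneg _) hx
      nlinarith
  obtain ⟨δ, hδ, hcell⟩ := exists_cell_point p R hR S hRS hne
  obtain ⟨a, ha, hreg⟩ := exists_regular (bigF p R) δ hδ
  choose! z hz1 hz2 using hcell a ha
  have hinjz : Set.InjOn z (S : Set (σ → ℝ)) := by
    intro x hx y hy hxy
    apply hinj x hx y hy
    intro j
    rw [hz1 x hx j, hz1 y hy j, hxy]
  obtain ⟨D, hD⟩ : ∃ D, D = Fintype.card J * d + 2 := ⟨_, rfl⟩
  rw [← hD]
  have key : ∀ b : σ → ℝ,
      (∀ z : σ → ℝ, (∀ i, eval z (pderiv i (bigF p R)) = b i) →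
        (jac (fun i => pderiv i (bigF p R)) z).det ≠ 0) →
      (S.filter fun x => ∀ i, eval (z x) (pderiv i (bigF p R)) = b i).card ≤
        (Fintype.card σ * D + 1) ^ Fintype.card σ := by
    intro b hb
    have h1 : ((S.filter fun x => ∀ i, eval (z x) (pderiv i (bigF p R)) = b i).image z).card =
        (S.filter fun x => ∀ i, eval (z x) (pderiv i (bigF p R)) = b i).card := by
      apply Finset.card_image_of_injOn
      intro x hx y hy hxy
      exact hinjz (Finset.mem_filter.1 hx).1 (Finset.mem_filter.1 hy).1 hxy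
    rw [← h1]
    have hjac : ∀ w : σ → ℝ, jac (fun i => pderiv i (bigF p R) - C (b i)) w =
        jac (fun i => pderiv i (bigF p R)) w := by
      intro w
      unfold jac
      ext i j
      rw [Matrix.of_apply, Matrix.of_apply, map_sub, pderiv_C, sub_zero]
    apply card_zeros_le (fun i => pderiv i (bigF p R) - C (b i)) D
    · intro i
      refine (totalDegree_sub_C_le _ _).trans ((totalDegree_pderiv_le _ _).trans ?_)
      rw [hD]
      exact totalDegree_bigF p R d hd
    · intro w hw i
      obtain ⟨x, hx, rfl⟩ := Finset.mem_image.1 hw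
      rw [map_sub, eval_C, (Finset.mem_filter.1 hx).2 i, sub_self]
    · intro w hw
      obtain ⟨x, hx, rfl⟩ := Finset.mem_image.1 hw
      rw [hjac]
      exact hb _ (Finset.mem_filter.1 hx).2
  have k1 := key a (fun w hw => hreg w (Or.inl hw))
  have k2 := key (fun i => -a i) (fun w hw => hreg w (Or.inr hw))
  have hcov : S ⊆ (S.filter fun x => ∀ i, eval (z x) (pderiv i (bigF p R)) = a i) ∪
      (S.filter fun x => ∀ i, eval (z x) (pderiv i (bigF p R)) = -a i) := by
    intro x hx
    rw [Finset.mem_union, Finset.mem_filter, Finset.mem_filter]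
    rcases hz2 x hx with h | h
    · exact Or.inl ⟨hx, h⟩
    · exact Or.inr ⟨hx, h⟩
  have h3 := (Finset.card_le_card hcov).trans (Finset.card_union_le _ _)
  omega

end Pool.Agent.helper51.OT
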