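import Mathlib
import Pool.Agent.helper51.OT.Defs

/-!
# Project OT, module SAlt: the alternating extension; acyclicity

* The first four statements are case analysis in the definition of `alt` (`unfold alt`, `split_ifs`, `omega`;
  the values are treated as atoms).
* `alt_ax4`: the numbers `χ(b,c,d), -χ(a,c,d), χ(a,b,d), -χ(a,b,c)` are permuted and multiplied by `-1` if two
  neighbours among `a, b, c, d` are exchanged, so we may assume `a < b < c < d` (24 orders; or simply split on the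
  order of all pairs and reduce `alt` to sorted values).  Then the four numbers are `s₄, -s₃, s₂, -s₁` with
  `s = (f a b c, f a b d, f a c d, f b c d)`; equality means that `s` has three sign changes, which
  `Mono4` excludes (`mono`).
-/

set_option autoImplicit false

namespace Pool.Agent.helper51.OT

theorem alt_swap12 (f : ℕ → ℕ → ℕ → ℤ) {p q r : ℕ} (h : [p, q, r].Nodup) :
    alt f q p r = -alt f p q r := by
  simp only [List.nodup_cons, List.mem_cons, List.not_mem_nil, or_false, not_or, not_false_eq_true,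
    List.nodup_nil, and_true] at h
  obtain ⟨⟨h1, h2⟩, h3⟩ := h
  unfold alt
  split_ifs <;> omega

theorem alt_swap23 (f : ℕ → ℕ → ℕ → ℤ) {p q r : ℕ} (h : [p, q, r].Nodup) :
    alt f p r q = -alt f p q r := by
  simp only [List.nodup_cons, List.mem_cons, List.not_mem_nil, or_false, not_or, not_false_eq_true,
    List.nodup_nil, and_true] at h
  obtain ⟨⟨h1, h2⟩, h3⟩ := h
  unfold alt
  split_ifs <;> omega

theorem alt_sorted (f : ℕ → ℕ → ℕ → ℤ) {p q r : ℕ} (h1 : p < q) (h2 : q < r) :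
    alt f p q r = f p q r := by
  unfold alt
  rw [if_pos h1, if_pos h2]

theorem alt_val {f : ℕ → ℕ → ℕ → ℤ} (hf : IsSignotope f) {p q r : ℕ} (h : [p, q, r].Nodup) :
    alt f p q r = 1 ∨ alt f p q r = -1 := by
  simp only [List.nodup_cons, List.mem_cons, List.not_mem_nil, or_false, not_or, not_false_eq_true,
    List.nodup_nil, and_true] at h
  obtain ⟨⟨h1, h2⟩, h3⟩ := h
  unfold alt
  split_ifs with a1 a2 a3 a4 a5
  · exact hf.val p q r a1 a2
  · have := hf.val p r q a3 (by omega)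
    omega
  · exact hf.val r p q (by omega) a1
  · have := hf.val q p r (by omega) a4
    omega
  · exact hf.val q r p a5 (by omega)
  · have := hf.val r q p (by omega) (by omega)
    omega

/-- The sorted case (all four signs `±1`, at most one sign change). -/
theorem SAlt_core {s1 s2 s3 s4 : ℤ} (h1 : s1 = 1 ∨ s1 = -1) (h2 : s2 = 1 ∨ s2 = -1)
    (h3 : s3 = 1 ∨ s3 = -1) (h4 : s4 = 1 ∨ s4 = -1) (m : Mono4 s1 s2 s3 s4) :
    ¬ (s4 = -s3 ∧ -s3 = s2 ∧ s2 = -s1) := by
  unfold Mono4 at m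
  rintro ⟨e1, e2, e3⟩
  omega

/-- The statement of acyclicity. -/
def SAltP (f : ℕ → ℕ → ℕ → ℤ) (a b c d : ℕ) : Prop :=
  ¬ (alt f b c d = -alt f a c d ∧ -alt f a c d = alt f a b d ∧ alt f a b d = -alt f a b c)

theorem SAlt_sorted {f : ℕ → ℕ → ℕ → ℤ} (hf : IsSignotope f) {a b c d : ℕ}
    (h1 : a < b) (h2 : b < c) (h3 : c < d) : SAltP f a b c d := by
  unfold SAltP
  rw [alt_sorted f h2 h3, alt_sorted f (h1.trans h2) h3, alt_sorted f h1 (h2.trans h3),
    alt_sorted f h1 h2]
  exact SAlt_core (hf.val _ _ _ h1 h2) (hf.val _ _ _ h1 (h2.trans h3))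
    (hf.val _ _ _ (h1.trans h2) h3) (hf.val _ _ _ h2 h3) (hf.mono _ _ _ _ h1 h2 h3)

theorem SAlt_sw1 {f : ℕ → ℕ → ℕ → ℤ} {a b c d : ℕ} (h : [a, b, c, d].Nodup)
    (H : SAltP f b a c d) : SAltP f a b c d := by
  have e1 : alt f b a d = -alt f a b d := alt_swap12 f (by simp_all)
  have e2 : alt f b a c = -alt f a b c := alt_swap12 f (by simp_all)
  unfold SAltP at *
  rw [e1, e2] at H
  omega

theorem SAlt_sw2 {f : ℕ → ℕ → ℕ → ℤ} {a b c d : ℕ} (h : [a, b, c, d].Nodup)
    (H : SAltP f a c b d) : SAltP f a b c d := by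
  have e1 : alt f c b d = -alt f b c d := alt_swap12 f (by simp_all)
  have e2 : alt f a c b = -alt f a b c := alt_swap23 f (by simp_all)
  unfold SAltP at *
  rw [e1, e2] at H
  omega

theorem SAlt_sw3 {f : ℕ → ℕ → ℕ → ℤ} {a b c d : ℕ} (h : [a, b, c, d].Nodup)
    (H : SAltP f a b d c) : SAltP f a b c d := by
  have e1 : alt f b d c = -alt f b c d := alt_swap23 f (by simp_all)
  have e2 : alt f a d c = -alt f a c d := alt_swap23 f (by simp_all)
  unfold SAltP at *
  rw [e1, e2] at H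
  omega

/-- The case where the last three are sorted. -/
theorem SAlt_s1 {f : ℕ → ℕ → ℕ → ℤ} (hf : IsSignotope f) {a b c d : ℕ}
    (h : [a, b, c, d].Nodup) (h2 : b < c) (h3 : c < d) : SAltP f a b c d := by
  have hn := h
  simp only [List.nodup_cons, List.mem_cons, List.not_mem_nil, or_false, not_or, not_false_eq_true,
    List.nodup_nil, and_true] at hn
  obtain ⟨⟨n1, n2, n3⟩, ⟨n4, n5⟩, n6⟩ := hn
  rcases Nat.lt_or_gt_of_ne n1 with k1 | k1
  · exact SAlt_sorted hf k1 h2 h3
  apply SAlt_sw1 h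
  rcases Nat.lt_or_gt_of_ne n2 with k2 | k2
  · exact SAlt_sorted hf k1 k2 h3
  apply SAlt_sw2 (by simp; omega)
  rcases Nat.lt_or_gt_of_ne n3 with k3 | k3
  · exact SAlt_sorted hf h2 k2 k3
  apply SAlt_sw3 (by simp; omega)
  exact SAlt_sorted hf h2 h3 k3

/-- The case where the last two are sorted. -/
theorem SAlt_s2 {f : ℕ → ℕ → ℕ → ℤ} (hf : IsSignotope f) {a b c d : ℕ}
    (h : [a, b, c, d].Nodup) (h3 : c < d) : SAltP f a b c d := by
  have hn := h
  simp only [List.nodup_cons, List.mem_cons, List.not_mem_nil, or_false, not_or, not_false_eq_true,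
    List.nodup_nil, and_true] at hn
  obtain ⟨⟨n1, n2, n3⟩, ⟨n4, n5⟩, n6⟩ := hn
  rcases Nat.lt_or_gt_of_ne n4 with k1 | k1
  · exact SAlt_s1 hf h k1 h3
  apply SAlt_sw2 h
  rcases Nat.lt_or_gt_of_ne n5 with k2 | k2
  · exact SAlt_s1 hf (by simp; omega) k1 k2
  apply SAlt_sw3 (by simp; omega)
  exact SAlt_s1 hf (by simp; omega) h3 k2

theorem alt_ax4 {f : ℕ → ℕ → ℕ → ℤ} (hf : IsSignotope f) {a b c d : ℕ}
    (h : [a, b, c, d].Nodup) :
    ¬ (alt f b c d = -alt f a c d ∧ -alt f a c d = alt f a b d ∧ alt f a b d = -alt f a b c) := by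
  change SAltP f a b c d
  have hn := h
  simp only [List.nodup_cons, List.mem_cons, List.not_mem_nil, or_false, not_or, not_false_eq_true,
    List.nodup_nil, and_true] at hn
  obtain ⟨⟨n1, n2, n3⟩, ⟨n4, n5⟩, n6⟩ := hn
  rcases Nat.lt_or_gt_of_ne n6 with k1 | k1
  · exact SAlt_s2 hf h k1
  apply SAlt_sw3 h
  exact SAlt_s2 hf (by simp; omega) k1

end Pool.Agent.helper51.OT
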