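import Mathlib
import Pool.Agent.helper51.OT.Defs

/-!
# Project OT, module SAx5: the three-term relations for signotopes

Let `x, a, b, c, d` be distinct.  If two neighbours among `a, b, c, d` are exchanged, the three numbers
`χ(x,a,b)χ(x,c,d), -χ(x,a,c)χ(x,b,d), χ(x,a,d)χ(x,b,c)` are permuted and multiplied by `-1` (use the alternation of `alt`,
to be proved here again as `SAx5_...` lemmas or directly by unfolding), so it is enough to treat `a < b < c < d`
(24 orders of `a, b, c, d`).  Then there are five positions of `x`.  In each of them let `e₁ < ... < e₅` be the sorted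
elements and `s_{ijk} = f e_i e_j e_k` (ten signs).  The conditions `Mono4` for the five 4-subsets
`(s123,s124,s134,s234)`, `(s123,s125,s135,s235)`, `(s124,s125,s145,s245)`, `(s134,s135,s145,s345)`,
`(s234,s235,s245,s345)` imply the claim: a finite check over `2^10` sign vectors (62 of them satisfy the conditions; checked
by computer).  For example with the signs coded by `Bool` a statement `∀ s123 ... s345 : Bool, conditions → claim` proved by
`decide`, or `rcases` on the ten values `1`/`-1` with `simp_all`/`omega`/`grind` closing each branch (branch on few values first: the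
conditions fix many others).  Alternative: do not sort at all but split on the order of the ten pairs and close each of the
120 cases by the Boolean lemma.
-/

set_option autoImplicit false

namespace Pool.Agent.helper51.OT

/-- A sign from a Boolean. -/
private def SAx5_sg (b : Bool) : ℤ := cond b 1 (-1)

private theorem SAx5_ex {z : ℤ} (h : z = 1 ∨ z = -1) : ∃ b, z = SAx5_sg b := by
  rcases h with h | h
  · exact ⟨true, h⟩
  · exact ⟨false, h⟩

private instance SAx5_dec (a b c d : ℤ) : Decidable (Mono4 a b c d) := by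
  unfold Mono4
  infer_instance

/-- The three-term relation. -/
private def SAx5_P (xab xcd xac xbd xad xbc : ℤ) : Prop :=
  ¬ (xab * xcd = -(xac * xbd) ∧ -(xac * xbd) = xad * xbc)

private instance SAx5_decP (a b c d e f : ℤ) : Decidable (SAx5_P a b c d e f) := by
  unfold SAx5_P
  infer_instance

private theorem SAx5_bool : ∀ s123 s124 s125 s134 s135 s145 s234 s235 s245 s345 : Bool,
    Mono4 (SAx5_sg s123) (SAx5_sg s124) (SAx5_sg s134) (SAx5_sg s234) →
    Mono4 (SAx5_sg s123) (SAx5_sg s125) (SAx5_sg s135) (SAx5_sg s235) →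
    Mono4 (SAx5_sg s124) (SAx5_sg s125) (SAx5_sg s145) (SAx5_sg s245) →
    Mono4 (SAx5_sg s134) (SAx5_sg s135) (SAx5_sg s145) (SAx5_sg s345) →
    Mono4 (SAx5_sg s234) (SAx5_sg s235) (SAx5_sg s245) (SAx5_sg s345) →
    SAx5_P (SAx5_sg s123) (SAx5_sg s145) (SAx5_sg s124) (SAx5_sg s135) (SAx5_sg s125)
      (SAx5_sg s134) ∧
    SAx5_P (-SAx5_sg s123) (SAx5_sg s245) (-SAx5_sg s124) (SAx5_sg s235) (-SAx5_sg s125)
      (SAx5_sg s234) ∧
    SAx5_P (SAx5_sg s123) (SAx5_sg s345) (-SAx5_sg s134) (-SAx5_sg s235) (-SAx5_sg s135)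
      (-SAx5_sg s234) ∧
    SAx5_P (SAx5_sg s124) (-SAx5_sg s345) (SAx5_sg s134) (-SAx5_sg s245) (-SAx5_sg s145)
      (SAx5_sg s234) ∧
    SAx5_P (SAx5_sg s125) (SAx5_sg s345) (SAx5_sg s135) (SAx5_sg s245) (SAx5_sg s145)
      (SAx5_sg s235) := by
  decide +kernel

/-- The five relations for five sorted elements. -/
private theorem SAx5_five {f : ℕ → ℕ → ℕ → ℤ} (hf : IsSignotope f) {e1 e2 e3 e4 e5 : ℕ}
    (h12 : e1 < e2) (h23 : e2 < e3) (h34 : e3 < e4) (h45 : e4 < e5) :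
    SAx5_P (f e1 e2 e3) (f e1 e4 e5) (f e1 e2 e4) (f e1 e3 e5) (f e1 e2 e5) (f e1 e3 e4) ∧
    SAx5_P (-f e1 e2 e3) (f e2 e4 e5) (-f e1 e2 e4) (f e2 e3 e5) (-f e1 e2 e5) (f e2 e3 e4) ∧
    SAx5_P (f e1 e2 e3) (f e3 e4 e5) (-f e1 e3 e4) (-f e2 e3 e5) (-f e1 e3 e5) (-f e2 e3 e4) ∧
    SAx5_P (f e1 e2 e4) (-f e3 e4 e5) (f e1 e3 e4) (-f e2 e4 e5) (-f e1 e4 e5) (f e2 e3 e4) ∧
    SAx5_P (f e1 e2 e5) (f e3 e4 e5) (f e1 e3 e5) (f e2 e4 e5) (f e1 e4 e5) (f e2 e3 e5) := by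
  have h13 := h12.trans h23
  have h14 := h13.trans h34
  have h24 := h23.trans h34
  have h35 := h34.trans h45
  have h25 := h24.trans h45
  obtain ⟨s123, t123⟩ := SAx5_ex (hf.val e1 e2 e3 h12 h23)
  obtain ⟨s124, t124⟩ := SAx5_ex (hf.val e1 e2 e4 h12 h24)
  obtain ⟨s125, t125⟩ := SAx5_ex (hf.val e1 e2 e5 h12 h25)
  obtain ⟨s134, t134⟩ := SAx5_ex (hf.val e1 e3 e4 h13 h34)
  obtain ⟨s135, t135⟩ := SAx5_ex (hf.val e1 e3 e5 h13 h35)
  obtain ⟨s145, t145⟩ := SAx5_ex (hf.val e1 e4 e5 h14 h45)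
  obtain ⟨s234, t234⟩ := SAx5_ex (hf.val e2 e3 e4 h23 h34)
  obtain ⟨s235, t235⟩ := SAx5_ex (hf.val e2 e3 e5 h23 h35)
  obtain ⟨s245, t245⟩ := SAx5_ex (hf.val e2 e4 e5 h24 h45)
  obtain ⟨s345, t345⟩ := SAx5_ex (hf.val e3 e4 e5 h34 h45)
  have m1 := hf.mono e1 e2 e3 e4 h12 h23 h34
  have m2 := hf.mono e1 e2 e3 e5 h12 h23 h35
  have m3 := hf.mono e1 e2 e4 e5 h12 h24 h45
  have m4 := hf.mono e1 e3 e4 e5 h13 h34 h45
  have m5 := hf.mono e2 e3 e4 e5 h23 h34 h45
  rw [t123, t124, t134, t234] at m1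
  rw [t123, t125, t135, t235] at m2
  rw [t124, t125, t145, t245] at m3
  rw [t134, t135, t145, t345] at m4
  rw [t234, t235, t245, t345] at m5
  rw [t123, t124, t125, t134, t135, t145, t234, t235, t245, t345]
  exact SAx5_bool s123 s124 s125 s134 s135 s145 s234 s235 s245 s345 m1 m2 m3 m4 m5

/-- The relation for `x` and `a, b, c, d`. -/
private def SAx5_Q (f : ℕ → ℕ → ℕ → ℤ) (x a b c d : ℕ) : Prop :=
  SAx5_P (alt f x a b) (alt f x c d) (alt f x a c) (alt f x b d) (alt f x a d) (alt f x b c)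

private theorem SAx5_swap (f : ℕ → ℕ → ℕ → ℤ) {x a b : ℕ} (hab : a ≠ b) (hxa : x ≠ a)
    (hxb : x ≠ b) : alt f x b a = -alt f x a b := by
  rcases lt_or_gt_of_ne hab with h1 | h1 <;> rcases lt_or_gt_of_ne hxa with h2 | h2 <;>
    rcases lt_or_gt_of_ne hxb with h3 | h3 <;>
    first
    | (exfalso; omega)
    | (simp only [alt, h1, h2, h3, not_lt_of_gt h1, not_lt_of_gt h2, not_lt_of_gt h3, if_true,
        if_false, neg_neg])

private theorem SAx5_sorted {f : ℕ → ℕ → ℕ → ℤ} (hf : IsSignotope f) {x a b c d : ℕ}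
    (hxa : x ≠ a) (hxb : x ≠ b) (hxc : x ≠ c) (hxd : x ≠ d) (hab : a < b) (hbc : b < c)
    (hcd : c < d) : SAx5_Q f x a b c d := by
  have hac := hab.trans hbc
  have had := hac.trans hcd
  have hbd := hbc.trans hcd
  have nab := not_lt_of_gt hab
  have nac := not_lt_of_gt hac
  have nad := not_lt_of_gt had
  have nbc := not_lt_of_gt hbc
  have nbd := not_lt_of_gt hbd
  have ncd := not_lt_of_gt hcd
  unfold SAx5_Q
  rcases lt_or_gt_of_ne hxa with h1 | h1
  · have h2 : x < b := h1.trans hab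
    have h3 : x < c := h2.trans hbc
    have h4 : x < d := h3.trans hcd
    simp only [alt, h1, h2, h3, h4, hab, hac, had, hbc, hbd, hcd, if_true]
    exact (SAx5_five hf h1 hab hbc hcd).1
  · rcases lt_or_gt_of_ne hxb with h2 | h2
    · have h3 : x < c := h2.trans hbc
      have h4 : x < d := h3.trans hcd
      simp only [alt, h1, h2, h3, h4, hab, hac, had, hbc, hbd, hcd, not_lt_of_gt h1, if_true,
        if_false]
      exact (SAx5_five hf h1 h2 hbc hcd).2.1
    · rcases lt_or_gt_of_ne hxc with h3 | h3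
      · have h4 : x < d := h3.trans hcd
        simp only [alt, h1, h2, h3, h4, hab, hac, had, hbc, hbd, hcd, not_lt_of_gt h1,
          not_lt_of_gt h2, if_true, if_false]
        exact (SAx5_five hf hab h2 h3 hcd).2.2.1
      · rcases lt_or_gt_of_ne hxd with h4 | h4
        · simp only [alt, h1, h2, h3, h4, hab, hac, had, hbc, hbd, hcd, not_lt_of_gt h1,
            not_lt_of_gt h2, not_lt_of_gt h3, if_true, if_false]
          exact (SAx5_five hf hab hbc h3 h4).2.2.2.1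
        · simp only [alt, h1, h2, h3, h4, hab, hac, had, hbc, hbd, hcd, not_lt_of_gt h1,
            not_lt_of_gt h2, not_lt_of_gt h3, not_lt_of_gt h4, if_true, if_false]
          exact (SAx5_five hf hab hbc hcd h4).2.2.2.2

/-- Distinctness of five numbers. -/
private def SAx5_D (x a b c d : ℕ) : Prop :=
  (x ≠ a ∧ x ≠ b ∧ x ≠ c ∧ x ≠ d) ∧ (a ≠ b ∧ a ≠ c ∧ a ≠ d) ∧ (b ≠ c ∧ b ≠ d) ∧ c ≠ d

private theorem SAx5_s12 {f : ℕ → ℕ → ℕ → ℤ} {x a b c d : ℕ} (hD : SAx5_D x a b c d)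
    (h : SAx5_Q f x b a c d) : SAx5_Q f x a b c d := by
  obtain ⟨⟨x1, x2, x3, x4⟩, ⟨a1, a2, a3⟩, ⟨b1, b2⟩, c1⟩ := hD
  unfold SAx5_Q SAx5_P at h ⊢
  rw [SAx5_swap f a1 x1 x2] at h
  intro ⟨h1, h2⟩
  apply h
  constructor
  · rw [mul_comm (alt f x b c), neg_mul, h1, h2]
  · rw [mul_comm (alt f x b c), ← h2, mul_comm (alt f x b d), neg_neg]

private theorem SAx5_s34 {f : ℕ → ℕ → ℕ → ℤ} {x a b c d : ℕ} (hD : SAx5_D x a b c d)
    (h : SAx5_Q f x a b d c) : SAx5_Q f x a b c d := by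
  obtain ⟨⟨x1, x2, x3, x4⟩, ⟨a1, a2, a3⟩, ⟨b1, b2⟩, c1⟩ := hD
  unfold SAx5_Q SAx5_P at h ⊢
  rw [SAx5_swap f c1 x3 x4] at h
  intro ⟨h1, h2⟩
  apply h
  constructor
  · rw [mul_neg, h1, h2]
  · rw [← h2, neg_neg]

private theorem SAx5_s23 {f : ℕ → ℕ → ℕ → ℤ} {x a b c d : ℕ} (hD : SAx5_D x a b c d)
    (h : SAx5_Q f x a c b d) : SAx5_Q f x a b c d := by
  obtain ⟨⟨x1, x2, x3, x4⟩, ⟨a1, a2, a3⟩, ⟨b1, b2⟩, c1⟩ := hD
  unfold SAx5_Q SAx5_P at h ⊢
  rw [SAx5_swap f b1 x2 x3] at h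
  intro ⟨h1, h2⟩
  apply h
  constructor
  · rw [h1, neg_neg]
  · rw [h1, h2, mul_neg]

/-- Two sorted pairs. -/
private theorem SAx5_pairs {f : ℕ → ℕ → ℕ → ℤ} (hf : IsSignotope f) {x a b c d : ℕ}
    (hD : SAx5_D x a b c d) (hab : a < b) (hcd : c < d) : SAx5_Q f x a b c d := by
  have hD' := hD
  obtain ⟨⟨x1, x2, x3, x4⟩, ⟨a1, a2, a3⟩, ⟨b1, b2⟩, c1⟩ := hD'
  rcases lt_or_gt_of_ne b1 with h | h
  · exact SAx5_sorted hf x1 x2 x3 x4 hab h hcd
  · have D2 : SAx5_D x a c b d := by unfold SAx5_D at hD ⊢; omega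
    apply SAx5_s23 hD
    rcases lt_or_gt_of_ne a2 with h1 | h1
    · rcases lt_or_gt_of_ne b2 with h2 | h2
      · exact SAx5_sorted hf x1 x3 x2 x4 h1 h h2
      · exact SAx5_s34 D2 (SAx5_sorted hf x1 x3 x4 x2 h1 hcd h2)
    · have D3 : SAx5_D x c a b d := by unfold SAx5_D at hD ⊢; omega
      apply SAx5_s12 D2
      rcases lt_or_gt_of_ne b2 with h2 | h2
      · exact SAx5_sorted hf x3 x1 x2 x4 h1 hab h2
      · have D4 : SAx5_D x c a d b := by unfold SAx5_D at hD ⊢; omega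
        apply SAx5_s34 D3
        rcases lt_or_gt_of_ne a3 with h3 | h3
        · exact SAx5_sorted hf x3 x1 x4 x2 h1 h3 h2
        · exact SAx5_s23 D4 (SAx5_sorted hf x3 x4 x1 x2 hcd h3 hab)

theorem alt_ax5 {f : ℕ → ℕ → ℕ → ℤ} (hf : IsSignotope f) {x a b c d : ℕ}
    (h : [x, a, b, c, d].Nodup) :
    ¬ (alt f x a b * alt f x c d = -(alt f x a c * alt f x b d) ∧
       -(alt f x a c * alt f x b d) = alt f x a d * alt f x b c) := by
  have hD : SAx5_D x a b c d := by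
    simp only [List.nodup_cons, List.mem_cons, List.not_mem_nil, or_false, not_or,
      not_false_eq_true, List.nodup_nil, and_true] at h
    exact h
  have hab : a ≠ b := hD.2.1.1
  have hcd : c ≠ d := hD.2.2.2
  change SAx5_Q f x a b c d
  rcases lt_or_gt_of_ne hab with h1 | h1
  · rcases lt_or_gt_of_ne hcd with h2 | h2
    · exact SAx5_pairs hf hD h1 h2
    · exact SAx5_s34 hD (SAx5_pairs hf (by unfold SAx5_D at hD ⊢; omega) h1 h2)
  · apply SAx5_s12 hD
    have D2 : SAx5_D x b a c d := by unfold SAx5_D at hD ⊢; omega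
    rcases lt_or_gt_of_ne hcd with h2 | h2
    · exact SAx5_pairs hf D2 h1 h2
    · exact SAx5_s34 D2 (SAx5_pairs hf (by unfold SAx5_D at hD ⊢; omega) h1 h2)

end Pool.Agent.helper51.OT
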