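import Mathlib
import Pool.Agent.helper51.OT.Defs

/-!
# Project OT, module SXf: `xf q W` is a signotope; its values on clusters

`xf_signotope`.  Values: clear (`unfold xf xs`, `split_ifs`).  Monotonicity for `p < r < s < u`: let
`a ≤ b ≤ c ≤ d` be the clusters (`p / 4`, ...; `omega` knows `/ 4` and `% 4`).  Cases:
* `a < b < c < d`: `xs` of `(a,b,c), (a,b,d), (a,c,d), (b,c,d)`, whose sums are strictly increasing, so at most one of
  them is equal to `12 q`; the sequence is `-1, .., -1, *, 1, .., 1`;
* `a = b < c < d`: `-1, -1, S, S` with `S = xs a c d`;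
* `a < b = c < d`: `1, S, S, -1` with `S = xs a b d`;
* `a < b < c = d`: `S, S, 1, 1` with `S = xs a b c`;
* `a = b < c = d`: `-1, -1, 1, 1`;
* `a = b = c < d`: `*, -1, -1, -1`;
* `a < b = c = d`: `1, 1, 1, *`;
* all equal: then `p, r, s, u` are numbers 0, 1, 2, 3 of the cluster and the sequence is `-1, -1, -1, 1`.
A practical way: name the values `xs ..` by `generalize` where they are equal, otherwise `unfold Mono4 xf xs; split_ifs <;> omega`-like.

`chi0_val`, `chi0_swap12`: case analysis in `alt` (distinct naturals).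

`alt_xf_clusters` (K1): for distinct clusters `a, b, c` and `i, j, k < 4`, `4 a + i < 4 b + j ↔ a < b` and so on, and
`(4 a + i) / 4 = a`; so the value is `alt (xs q W) a b c`.

`alt_xf_self` (K2): the values on the triples of one cluster, direct computation
(`alt` of `(0,3,1), (0,3,2), (3,1,2), (1,0,2)` all `+1`), where 0, 3, 1 are the hull elements in counterclockwise order and 2
is the interior element.
-/

set_option autoImplicit false

namespace Pool.Agent.helper51.OT

theorem xf_signotope (q : ℕ) (W : Finset (ℕ × ℕ)) : IsSignotope (xf q W) := by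
  sorry

theorem chi0_val (q : ℕ) (W : Finset (ℕ × ℕ)) {a b c : ℕ} (h : [a, b, c].Nodup) :
    chi0 q W a b c = 1 ∨ chi0 q W a b c = -1 := by
  sorry

theorem alt_xf_clusters (q : ℕ) (W : Finset (ℕ × ℕ)) {a b c i j k : ℕ} (h : [a, b, c].Nodup)
    (hi : i < 4) (hj : j < 4) (hk : k < 4) :
    alt (xf q W) (4 * a + i) (4 * b + j) (4 * c + k) = chi0 q W a b c := by
  sorry

theorem alt_xf_self (q : ℕ) (W : Finset (ℕ × ℕ)) (a : ℕ) :
    alt (xf q W) (4 * a) (4 * a + 3) (4 * a + 1) = 1 ∧
    alt (xf q W) (4 * a) (4 * a + 3) (4 * a + 2) = 1 ∧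
    alt (xf q W) (4 * a + 3) (4 * a + 1) (4 * a + 2) = 1 ∧
    alt (xf q W) (4 * a + 1) (4 * a) (4 * a + 2) = 1 := by
  sorry

end Pool.Agent.helper51.OT
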