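import Mathlib
import Pool.Agent.helper51.OT.SAlt
import Pool.Agent.helper51.OT.SAx5
import Pool.Agent.helper51.OT.SXf

/-!
# Project OT, module SOrd: `chiW` is a simple order type (assembly)

All fields of `IsSimpleOrderType` from `SAlt`, `SAx5`, `SXf` with the coercion `Fin n → ℕ` (distinct elements of `Fin n` have
distinct values; `List.Nodup` of the values: `List.Nodup.map Fin.val_injective`, or `simp` with `Fin.ext_iff`).
`chiW q W i j k = alt (xf q W) i j k` by definition.
-/

set_option autoImplicit false

namespace Pool.Agent.helper51.OT

theorem chiW_simple (q : ℕ) (W : Finset (ℕ × ℕ)) (n : ℕ) :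
    IsSimpleOrderType (n := n) (chiW q W) := by
  sorry

end Pool.Agent.helper51.OT
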